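import Pool.Agent.H43.VM.Defs

/-!
# [H43 VM BASE] `J k k N <= k! N^k`

PROOF. If `x, y : Fin k → ℤ` have equal power sums of the exponents `1..k` then by Newton's identities
(over `ℚ`: `MvPolynomial.mul_esymm_eq_sum`, `j` invertible) their elementary symmetric functions
agree, so `∏ (X - x_i) = ∏ (X - y_i)` in `ℚ[X]`, so the multisets of the entries agree
(`Polynomial.roots_multiset_prod_X_sub_C`) and `y = x ∘ σ` for a permutation `σ`
(e.g. by a counting of fibres, or `Multiset.map` / `List.Perm` lemmas; alternatively: for each `i`,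
`∏_l (y_i - x_l) = 0` gives only `y_i ∈ {x_l}`, so work with multisets:
`Multiset.map x univ.val = Multiset.map y univ.val` implies the existence of `σ`). For given `x`
there are at most `k!` such `y`, and `card (box k N) = N^k`.
-/

namespace Pool.Agent.H43.VM

open Finset

/-- equal power sums give equal elementary symmetric functions (over `ℤ`, Newton) -/
theorem esymm_eq {k : ℕ} {x y : Fin k → ℤ} (h : ps k x = ps k y) (j : ℕ) (hj : j ≤ k) :
    MvPolynomial.aeval x (MvPolynomial.esymm (Fin k) ℤ j)
      = MvPolynomial.aeval y (MvPolynomial.esymm (Fin k) ℤ j) := by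
  induction j using Nat.strong_induction_on with
  | _ j ih =>
    rcases Nat.eq_zero_or_pos j with h0 | h0
    · subst h0; simp
    · have hN := MvPolynomial.mul_esymm_eq_sum (Fin k) ℤ j
      have e : ∀ z : Fin k → ℤ, (j : ℤ) * MvPolynomial.aeval z (MvPolynomial.esymm (Fin k) ℤ j)
          = (-1) ^ (j + 1) * ∑ a ∈ antidiagonal j with a.1 < j,
            (-1) ^ a.1 * MvPolynomial.aeval z (MvPolynomial.esymm (Fin k) ℤ a.1)
              * MvPolynomial.aeval z (MvPolynomial.psum (Fin k) ℤ a.2) := by
        intro z
        have := congrArg (MvPolynomial.aeval z) hN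
        simpa only [map_mul, map_natCast, map_pow, map_neg, map_one, map_sum] using this
      have hps : ∀ m, 1 ≤ m → m ≤ k → MvPolynomial.aeval x (MvPolynomial.psum (Fin k) ℤ m)
          = MvPolynomial.aeval y (MvPolynomial.psum (Fin k) ℤ m) := by
        intro m hm1 hmk
        have h2 := congrFun h ⟨m - 1, by omega⟩
        have e3 : ∀ z : Fin k → ℤ, MvPolynomial.aeval z (MvPolynomial.psum (Fin k) ℤ m)
            = ∑ i, z i ^ m := by
          intro z; simp [MvPolynomial.psum]
        rw [e3, e3]
        simp only [ps] at h2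
        rw [Nat.sub_add_cancel hm1] at h2
        exact h2
      have key : (j : ℤ) * MvPolynomial.aeval x (MvPolynomial.esymm (Fin k) ℤ j)
          = (j : ℤ) * MvPolynomial.aeval y (MvPolynomial.esymm (Fin k) ℤ j) := by
        rw [e x, e y]
        congr 1
        refine sum_congr rfl fun a ha => ?_
        rw [mem_filter, HasAntidiagonal.mem_antidiagonal] at ha
        rw [ih a.1 ha.2 (by omega), hps a.2 (by omega) (by omega)]
      exact mul_left_cancel₀ (by exact_mod_cast h0.ne') key

theorem multiset_eq {k : ℕ} {x y : Fin k → ℤ} (h : ps k x = ps k y) :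
    (univ.val.map x : Multiset ℤ) = univ.val.map y := by
  have hc : ∀ z : Fin k → ℤ, Multiset.card (univ.val.map z : Multiset ℤ) = k := by
    intro z; simp
  have hp : (((univ.val.map x : Multiset ℤ)).map fun t => Polynomial.X - Polynomial.C t).prod
      = (((univ.val.map y : Multiset ℤ)).map fun t => Polynomial.X - Polynomial.C t).prod := by
    rw [Multiset.prod_X_sub_X_eq_sum_esymm, Multiset.prod_X_sub_X_eq_sum_esymm, hc, hc]
    refine sum_congr rfl fun j hj => ?_
    rw [mem_range] at hj
    have := esymm_eq h j (by omega)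
    rw [MvPolynomial.aeval_esymm_eq_multiset_esymm, MvPolynomial.aeval_esymm_eq_multiset_esymm]
      at this
    rw [this]
  rw [← Polynomial.roots_multiset_prod_X_sub_C (univ.val.map x), hp,
    Polynomial.roots_multiset_prod_X_sub_C]

theorem exists_perm {k : ℕ} {x y : Fin k → ℤ} (h : ps k x = ps k y) :
    ∃ σ : Equiv.Perm (Fin k), y = x ∘ σ := by
  classical
  have hm := multiset_eq h
  have hcard : ∀ c : ℤ, Fintype.card {i // y i = c} = Fintype.card {i // x i = c} := by
    intro c
    have h1 := congrArg (Multiset.count c) hm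
    rw [Multiset.count_map, Multiset.count_map] at h1
    rw [Fintype.card_subtype, Fintype.card_subtype]
    have e : ∀ z : Fin k → ℤ, (univ.filter fun i => z i = c).card
        = Multiset.card (Multiset.filter (fun i => c = z i) univ.val) := by
      intro z
      rw [Finset.card_def, Finset.filter_val]
      congr 1
      exact Multiset.filter_congr fun i _ => eq_comm
    rw [e, e]
    exact h1.symm
  let e : ∀ c : ℤ, {i // y i = c} ≃ {i // x i = c} := fun c => Fintype.equivOfCardEq (hcard c)
  refine ⟨Equiv.ofFiberEquiv e, ?_⟩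
  funext i
  exact (Equiv.ofFiberEquiv_map e i).symm

theorem card_box (s N : ℕ) : (box s N).card = N ^ s := by
  simp [box, Fintype.card_piFinset]

theorem base (k N : ℕ) : J k k N ≤ k.factorial * N ^ k := by
  classical
  have hsub : ((box k N ×ˢ box k N).filter fun q => ps k q.1 = ps k q.2)
      ⊆ (box k N ×ˢ (univ : Finset (Equiv.Perm (Fin k)))).image (fun q => (q.1, q.1 ∘ q.2)) := by
    intro q hq
    rw [mem_filter, mem_product] at hq
    obtain ⟨σ, hσ⟩ := exists_perm hq.2
    rw [mem_image]
    refine ⟨(q.1, σ), mem_product.2 ⟨hq.1.1, mem_univ _⟩, ?_⟩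
    exact Prod.ext rfl hσ.symm
  calc J k k N ≤ _ := card_le_card hsub
    _ ≤ (box k N ×ˢ (univ : Finset (Equiv.Perm (Fin k)))).card := card_image_le
    _ = k.factorial * N ^ k := by
      rw [card_product, card_box, card_univ, Fintype.card_perm, Fintype.card_fin, mul_comm]

end Pool.Agent.H43.VM
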