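import Pool.Agent.H43.VM.Recu
import Pool.Agent.H43.VM.Base

/-!
# [H43 VM CLOSED] Vinogradov's mean value theorem

`J k (k l) N <= 2^(40 k^5 l^2) N^(lamb k l)`,
`lamb k l = 2kl - k(k+1)/2 + (k(k-1)/2) (1-1/k)^(l-1)`, for `k >= 2`, `l >= 1`, `N >= 1`.

PROOF by induction on `l`. `l = 1`: `base` (`lamb k 1 = k`, `k! <= k^k <= 2^(k^2)`).
FACTS: (a) `k l <= lamb k l` for `l >= 1` (Bernoulli `(1-1/k)^(l-1) >= 1 - (l-1)/k`,
`one_add_mul_le_pow`: `lamb - kl >= kl - k(k+1)/2 + k(k-1)/2 - (k-1)(l-1)/2 = (l-1)(k+1)/2 >= 0`);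
(b) `lamb k l <= 2 k l` and `2kl - lamb k l <= k(k+1)/2`;
(c) `(2kl + k(k-1)/2)/k + k + (1-1/k) lamb k l = lamb k (l+1)`.
STEP `l -> l+1` (`t = k l`). If `N < k^k`: `J <= N^(2k(l+1))` trivially (`card (box s N) = N^s`) and
`N^(2k(l+1)) = N^(lamb) N^(2k(l+1)-lamb) <= N^(lamb) (k^k)^(k(k+1)/2)`,
`k^(k^2(k+1)/2) <= 2^(k^3 (k+1)/2) <= 2^(40 k^5 (l+1)^2)`. (This also covers nothing else.)
If `N >= k^k`: `recu` with `D = 2^(40 k^5 l^2)`, `lam = lamb k l`. First term: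
`2 k^(2k(l+1)) N^(2k-2) <= 2^(1+2k^2(l+1)) N^(lamb k (l+1))` since `2k-2 <= k(l+1) <= lamb k (l+1)` and
`k <= 2^k`. Second term: the powers of `N` combine to `N^(lamb k (l+1))` by (c); the exponent
`k(k-1)/2` is natural division (even product: `(k*(k-1)/2 : ℕ)` casts to `k(k-1)/2`,
`Nat.even_mul_pred_self`). The constants: with `lg` the logarithm to base 2,
`1 + 2k lg(k(l+1)) + 3 lg k + lg k! + (k^3+1)(2kl + k(k-1)/2) + lamb k l + 40 k^5 l^2`; use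
`lg(k(l+1)) <= k(l+1)`, `lg k <= k`, `lg k! <= k^2`, `k^3+1 <= (9/8)k^3`, `lamb <= 2kl`; the sum of
both terms is `<= 2^(40 k^5 l^2 + 60 k^5 l + 20 k^5)`, which is `<= 2^(40 k^5 (l+1)^2) / 2` with a lot of
room (`k >= 2`, so `k^2 <= k^5/8` etc.).
-/

namespace Pool.Agent.H43.VM

open Finset

/-- the exponent of the mean value theorem -/
noncomputable def lamb (k l : ℕ) : ℝ :=
  2 * (k : ℝ) * l - (k : ℝ) * (k + 1) / 2 + ((k : ℝ) * (k - 1) / 2) * (1 - 1 / (k : ℝ)) ^ (l - 1)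

theorem closed_c (k : ℕ) : (((k * (k - 1) / 2 : ℕ)) : ℝ) = (k : ℝ) * (k - 1) / 2 := by
  have h : 2 ∣ k * (k - 1) := (Nat.even_mul_pred_self k).two_dvd
  rw [Nat.cast_div h (by norm_num)]
  rcases Nat.eq_zero_or_pos k with rfl | hk
  · simp
  · push_cast [Nat.cast_sub hk]
    ring

theorem closed_q (k l : ℕ) (hk : 2 ≤ k) : 0 ≤ (1 - 1 / (k : ℝ)) ^ l ∧ (1 - 1 / (k : ℝ)) ^ l ≤ 1 := by
  have hk' : (2 : ℝ) ≤ k := by exact_mod_cast hk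
  have h1 : 1 / (k : ℝ) ≤ 1 := by
    rw [div_le_one (by linarith)]
    linarith
  have h2 : 0 < 1 / (k : ℝ) := by positivity
  exact ⟨pow_nonneg (by linarith) _, pow_le_one₀ (by linarith) (by linarith)⟩

theorem closed_low (k l : ℕ) (hk : 2 ≤ k) (hl : 1 ≤ l) : (k : ℝ) * l ≤ lamb k l := by
  have hk' : (2 : ℝ) ≤ k := by exact_mod_cast hk
  have hl' : (1 : ℝ) ≤ l := by exact_mod_cast hl
  have h1 : (1 : ℝ) - ((l : ℝ) - 1) / k ≤ (1 - 1 / (k : ℝ)) ^ (l - 1) := by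
    have h2 : (-2 : ℝ) ≤ -(1 / (k : ℝ)) := by
      have : 1 / (k : ℝ) ≤ 1 := by
        rw [div_le_one (by linarith)]
        linarith
      linarith
    have h3 := one_add_mul_le_pow h2 (l - 1)
    have h4 : ((l - 1 : ℕ) : ℝ) = (l : ℝ) - 1 := by
      rw [Nat.cast_sub hl, Nat.cast_one]
    rw [h4] at h3
    have h5 : (1 : ℝ) + -(1 / (k : ℝ)) = 1 - 1 / k := by ring
    rw [h5] at h3
    refine le_trans (le_of_eq ?_) h3
    ring
  have h2 : (0 : ℝ) ≤ (k : ℝ) * (k - 1) / 2 := by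
    have : (0 : ℝ) ≤ (k : ℝ) - 1 := by linarith
    positivity
  have h3 := mul_le_mul_of_nonneg_left h1 h2
  have h4 : (k : ℝ) * (k - 1) / 2 * (1 - ((l : ℝ) - 1) / k) =
      (k : ℝ) * (k - 1) / 2 - (k - 1) * (l - 1) / 2 := by
    field_simp
  rw [h4] at h3
  unfold lamb
  nlinarith

theorem closed_up (k l : ℕ) (hk : 2 ≤ k) : lamb k l ≤ 2 * (k : ℝ) * l ∧
    2 * (k : ℝ) * l - lamb k l ≤ (k : ℝ) ^ 2 := by
  have hk' : (2 : ℝ) ≤ k := by exact_mod_cast hk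
  obtain ⟨h1, h2⟩ := closed_q k (l - 1) hk
  have h3 : (0 : ℝ) ≤ (k : ℝ) * (k - 1) / 2 := by
    have : (0 : ℝ) ≤ (k : ℝ) - 1 := by linarith
    positivity
  have h4 := mul_le_mul_of_nonneg_left h2 h3
  have h5 := mul_nonneg h3 h1
  unfold lamb
  constructor <;> nlinarith

theorem closed_exp (k l : ℕ) (hk : 2 ≤ k) (hl : 1 ≤ l) :
    1 / (k : ℝ) * ((2 * (k * l) + k * (k - 1) / 2 : ℕ) : ℝ) + k + (1 - 1 / (k : ℝ)) * lamb k l =
      lamb k (l + 1) := by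
  have hk' : (2 : ℝ) ≤ k := by exact_mod_cast hk
  have hk0 : (k : ℝ) ≠ 0 := by linarith
  rw [Nat.cast_add, closed_c]
  unfold lamb
  have h1 : (1 - 1 / (k : ℝ)) ^ (l + 1 - 1) = (1 - 1 / (k : ℝ)) ^ (l - 1) * (1 - 1 / (k : ℝ)) := by
    rw [← pow_succ]
    congr 1
    omega
  rw [h1]
  set q := (1 - 1 / (k : ℝ)) ^ (l - 1) with hq
  push_cast
  field_simp
  ring

theorem closed_two (n : ℕ) : (n : ℝ) ≤ 2 ^ n := by
  exact_mod_cast (Nat.lt_two_pow_self (n := n)).le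

theorem closed_fact (k : ℕ) : (k.factorial : ℝ) ≤ 2 ^ (k ^ 2) := by
  have h1 : (k.factorial : ℝ) ≤ (k : ℝ) ^ k := by exact_mod_cast Nat.factorial_le_pow k
  refine h1.trans ?_
  rw [pow_two, pow_mul]
  exact pow_le_pow_left₀ (Nat.cast_nonneg _) (closed_two k) k

theorem closed_triv (k s N : ℕ) : (J k s N : ℝ) ≤ (N : ℝ) ^ (2 * s) := by
  have h1 : J k s N ≤ (box s N ×ˢ box s N).card := Finset.card_filter_le _ _
  have h2 : (box s N).card = N ^ s := by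
    unfold box
    rw [Fintype.card_piFinset]
    simp
  rw [Finset.card_product, h2] at h1
  calc (J k s N : ℝ) ≤ ((N ^ s * N ^ s : ℕ) : ℝ) := by exact_mod_cast h1
    _ = (N : ℝ) ^ (2 * s) := by
      push_cast
      ring

theorem closed_small (k l N : ℕ) (hk : 2 ≤ k) (hN : 1 ≤ N) (hNk : N ≤ k ^ k) :
    (J k (k * (l + 1)) N : ℝ) ≤ 2 ^ (40 * k ^ 5 * (l + 1) ^ 2) * (N : ℝ) ^ lamb k (l + 1) := by
  have hN' : (1 : ℝ) ≤ N := by exact_mod_cast hN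
  have hN0 : (0 : ℝ) < N := by linarith
  obtain ⟨-, h2⟩ := closed_up k (l + 1) hk
  refine (closed_triv _ _ _).trans ?_
  have h3 : (N : ℝ) ^ (2 * (k * (l + 1))) =
      (N : ℝ) ^ (2 * (k : ℝ) * ((l + 1 : ℕ) : ℝ) - lamb k (l + 1)) * (N : ℝ) ^ lamb k (l + 1) := by
    rw [← Real.rpow_add hN0, ← Real.rpow_natCast]
    congr 1
    push_cast
    ring
  rw [h3]
  refine mul_le_mul_of_nonneg_right ?_ (Real.rpow_nonneg hN0.le _)
  calc (N : ℝ) ^ (2 * (k : ℝ) * ((l + 1 : ℕ) : ℝ) - lamb k (l + 1))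
      ≤ (N : ℝ) ^ ((k : ℝ) ^ 2) := Real.rpow_le_rpow_of_exponent_le hN' h2
    _ = (N : ℝ) ^ (k ^ 2) := by
        have h4 : ((k : ℝ) ^ 2) = ((k ^ 2 : ℕ) : ℝ) := by push_cast; ring
        rw [h4, Real.rpow_natCast]
    _ ≤ ((k : ℝ) ^ k) ^ (k ^ 2) := by
        apply pow_le_pow_left₀ hN0.le
        exact_mod_cast hNk
    _ ≤ ((2 ^ k) ^ k) ^ (k ^ 2) := by
        have := closed_two k
        gcongr
    _ = 2 ^ (k * k * k ^ 2) := by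
        rw [← pow_mul, ← pow_mul, mul_assoc]
    _ ≤ 2 ^ (40 * k ^ 5 * (l + 1) ^ 2) := by
        apply pow_le_pow_right₀ (by norm_num)
        have h5 : k * k * k ^ 2 = k ^ 4 := by ring
        rw [h5]
        calc k ^ 4 ≤ k ^ 5 := Nat.pow_le_pow_right (by omega) (by norm_num)
          _ ≤ 40 * k ^ 5 * (l + 1) ^ 2 := by
            have : 0 < (l + 1) ^ 2 := by positivity
            nlinarith [Nat.zero_le (k ^ 5)]

theorem closed_arith1 (k l : ℕ) (hk : 2 ≤ k) :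
    2 + k * (2 * (k * l + k)) ≤ 40 * k ^ 5 * (l + 1) ^ 2 := by
  have h1 : k ^ 2 ≤ k ^ 5 := Nat.pow_le_pow_right (by omega) (by norm_num)
  have h0 : 1 ≤ k ^ 5 := Nat.one_le_pow _ _ (by omega)
  have h3 : k * (2 * (k * l + k)) = 2 * k ^ 2 * (l + 1) := by ring
  rw [h3]
  have h4 : k ^ 2 * (l + 1) ≤ k ^ 5 * (l + 1) := Nat.mul_le_mul_right _ h1
  have h5 : k ^ 5 * (l + 1) ≤ k ^ 5 * (l + 1) ^ 2 := by
    apply Nat.mul_le_mul_left
    nlinarith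
  have h6 : 1 ≤ k ^ 5 * (l + 1) ^ 2 := by
    have : 0 < k ^ 5 * (l + 1) ^ 2 := by positivity
    omega
  nlinarith

theorem closed_arith2 (k l : ℕ) (hk : 2 ≤ k) :
    2 + (k * (l + 1)) * (2 * k) + 3 * k + (k ^ 3 + 1) * (2 * (k * l) + k * (k - 1) / 2) + k ^ 2 +
      40 * k ^ 5 * l ^ 2 + 2 * (k * l) ≤ 40 * k ^ 5 * (l + 1) ^ 2 := by
  have e1 : k ^ 2 ≤ k ^ 5 := Nat.pow_le_pow_right (by omega) (by norm_num)
  have e2 : k ≤ k ^ 5 := Nat.le_self_pow (by norm_num) k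
  have e3 : k ^ 4 ≤ k ^ 5 := Nat.pow_le_pow_right (by omega) (by norm_num)
  have e0 : 1 ≤ k ^ 5 := Nat.one_le_pow _ _ (by omega)
  have e4 : k * (k - 1) / 2 ≤ k ^ 2 := by
    calc k * (k - 1) / 2 ≤ k * (k - 1) := Nat.div_le_self _ _
      _ ≤ k * k := Nat.mul_le_mul_left _ (Nat.sub_le _ _)
      _ = k ^ 2 := by ring
  have e5 : k ^ 3 + 1 ≤ 2 * k ^ 3 := by
    have : 1 ≤ k ^ 3 := Nat.one_le_pow _ _ (by omega)
    omega
  have e6 : (k ^ 3 + 1) * (2 * (k * l) + k * (k - 1) / 2) ≤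
      2 * k ^ 3 * (2 * (k * l) + k ^ 2) := Nat.mul_le_mul e5 (by omega)
  have e7 : 2 * k ^ 3 * (2 * (k * l) + k ^ 2) = 4 * (k ^ 4 * l) + 2 * k ^ 5 := by ring
  have e8 : k ^ 4 * l ≤ k ^ 5 * l := Nat.mul_le_mul_right _ e3
  have e9 : k ^ 2 * l ≤ k ^ 5 * l := Nat.mul_le_mul_right _ e1
  have e10 : k * l ≤ k ^ 5 * l := Nat.mul_le_mul_right _ e2
  have e11 : (k * (l + 1)) * (2 * k) = 2 * (k ^ 2 * l) + 2 * k ^ 2 := by ring
  have e12 : 40 * k ^ 5 * (l + 1) ^ 2 = 40 * k ^ 5 * l ^ 2 + 80 * (k ^ 5 * l) + 40 * k ^ 5 := by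
    ring
  rw [e12, e11]
  omega

theorem closed_step (k l N : ℕ) (hk : 2 ≤ k) (hl : 1 ≤ l) (hN : k ^ k ≤ N)
    (ih : ∀ M : ℕ, 1 ≤ M → (J k (k * l) M : ℝ) ≤ 2 ^ (40 * k ^ 5 * l ^ 2) * (M : ℝ) ^ lamb k l) :
    (J k (k * (l + 1)) N : ℝ) ≤ 2 ^ (40 * k ^ 5 * (l + 1) ^ 2) * (N : ℝ) ^ lamb k (l + 1) := by
  have hN1 : 1 ≤ N := le_trans (Nat.one_le_pow _ _ (by omega)) hN
  have hN' : (1 : ℝ) ≤ N := by exact_mod_cast hN1
  have hN0 : (0 : ℝ) < N := by linarith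
  have hk' : (2 : ℝ) ≤ k := by exact_mod_cast hk
  have hl' : (1 : ℝ) ≤ l := by exact_mod_cast hl
  have hlow := closed_low k l hk hl
  have hlam : 0 ≤ lamb k l := by
    have : (0 : ℝ) ≤ (k : ℝ) * l := by positivity
    linarith
  have hrec := recu k (k * l) N hk (by nlinarith) hN (2 ^ (40 * k ^ 5 * l ^ 2)) (lamb k l)
    (by positivity) hlam ih
  have e0 : k * (l + 1) = k * l + k := by ring
  rw [e0]
  refine hrec.trans ?_
  set L := lamb k (l + 1) with hL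
  set X := 40 * k ^ 5 * (l + 1) ^ 2 with hX
  have hNL : 0 < (N : ℝ) ^ L := Real.rpow_pos_of_pos hN0 _
  -- first term
  have t1 : 2 * (2 * ((k : ℝ) ^ (k * l + k) * (N : ℝ) ^ (k - 1)) ^ 2) ≤ 2 ^ X * (N : ℝ) ^ L := by
    have a1 : ((N : ℝ) ^ (k - 1)) ^ 2 ≤ (N : ℝ) ^ L := by
      rw [← pow_mul, ← Real.rpow_natCast]
      apply Real.rpow_le_rpow_of_exponent_le hN'
      have h1 := closed_low k (l + 1) hk (by omega)
      have h2 : (((k - 1) * 2 : ℕ) : ℝ) = ((k : ℝ) - 1) * 2 := by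
        rw [Nat.cast_mul, Nat.cast_sub (by omega)]
        norm_num
      rw [h2]
      push_cast at h1
      nlinarith
    have a2 : ((k : ℝ) ^ (k * l + k)) ^ 2 ≤ 2 ^ (k * (2 * (k * l + k))) := by
      have h1 := closed_two k
      calc ((k : ℝ) ^ (k * l + k)) ^ 2 ≤ (((2 : ℝ) ^ k) ^ (k * l + k)) ^ 2 := by gcongr
        _ = 2 ^ (k * (2 * (k * l + k))) := by
          rw [← pow_mul, ← pow_mul]
          congr 1
          ring
    calc 2 * (2 * ((k : ℝ) ^ (k * l + k) * (N : ℝ) ^ (k - 1)) ^ 2)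
        = 2 ^ 2 * ((k : ℝ) ^ (k * l + k)) ^ 2 * ((N : ℝ) ^ (k - 1)) ^ 2 := by ring
      _ ≤ 2 ^ 2 * 2 ^ (k * (2 * (k * l + k))) * (N : ℝ) ^ L := by gcongr
      _ = 2 ^ (2 + k * (2 * (k * l + k))) * (N : ℝ) ^ L := by rw [pow_add]
      _ ≤ 2 ^ X * (N : ℝ) ^ L := by
        refine mul_le_mul_of_nonneg_right ?_ hNL.le
        exact pow_le_pow_right₀ (by norm_num) (closed_arith1 k l hk)
  -- second term
  have t2 : 2 * (2 * ((k * l + k : ℕ) : ℝ) ^ (2 * k) * ((k : ℝ) ^ 3 *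
        ((2 ^ (k ^ 3 + 1) * (N : ℝ) ^ (1 / (k : ℝ))) ^ (2 * (k * l) + k * (k - 1) / 2) *
          ((N : ℝ) ^ k * (k.factorial : ℝ) * (2 ^ (40 * k ^ 5 * l ^ 2) *
            (2 * (N : ℝ) ^ (1 - 1 / (k : ℝ))) ^ lamb k l))))) ≤ 2 ^ X * (N : ℝ) ^ L := by
    set m := 2 * (k * l) + k * (k - 1) / 2 with hm
    have b1 : (2 * (N : ℝ) ^ (1 - 1 / (k : ℝ))) ^ lamb k l =
        2 ^ lamb k l * (N : ℝ) ^ ((1 - 1 / (k : ℝ)) * lamb k l) := by
      rw [Real.mul_rpow (by norm_num) (Real.rpow_nonneg hN0.le _), ← Real.rpow_mul hN0.le]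
    have b2 : (2 ^ (k ^ 3 + 1) * (N : ℝ) ^ (1 / (k : ℝ))) ^ m =
        2 ^ ((k ^ 3 + 1) * m) * (N : ℝ) ^ (1 / (k : ℝ) * (m : ℝ)) := by
      rw [mul_pow, ← pow_mul, ← Real.rpow_natCast ((N : ℝ) ^ (1 / (k : ℝ))), ← Real.rpow_mul hN0.le]
    have b3 : (N : ℝ) ^ (1 / (k : ℝ) * (m : ℝ)) * (N : ℝ) ^ k *
        (N : ℝ) ^ ((1 - 1 / (k : ℝ)) * lamb k l) = (N : ℝ) ^ L := by
      rw [← Real.rpow_natCast (N : ℝ) k, ← Real.rpow_add hN0, ← Real.rpow_add hN0, hm,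
        closed_exp k l hk hl]
    have b4 : (2 : ℝ) ^ lamb k l ≤ 2 ^ (2 * (k * l)) := by
      rw [← Real.rpow_natCast]
      apply Real.rpow_le_rpow_of_exponent_le (by norm_num)
      have := (closed_up k l hk).1
      push_cast
      linarith
    have b5 : ((k * l + k : ℕ) : ℝ) ^ (2 * k) ≤ 2 ^ ((k * (l + 1)) * (2 * k)) := by
      rw [pow_mul 2 (k * (l + 1)) (2 * k), e0]
      exact pow_le_pow_left₀ (Nat.cast_nonneg _) (closed_two _) _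
    have b6 : (k : ℝ) ^ 3 ≤ 2 ^ (3 * k) := by
      rw [mul_comm 3 k, pow_mul]
      exact pow_le_pow_left₀ (Nat.cast_nonneg _) (closed_two _) _
    have b7 := closed_fact k
    rw [b1, b2]
    calc 2 * (2 * ((k * l + k : ℕ) : ℝ) ^ (2 * k) * ((k : ℝ) ^ 3 *
          ((2 ^ ((k ^ 3 + 1) * m) * (N : ℝ) ^ (1 / (k : ℝ) * (m : ℝ))) *
            ((N : ℝ) ^ k * (k.factorial : ℝ) * (2 ^ (40 * k ^ 5 * l ^ 2) *
              (2 ^ lamb k l * (N : ℝ) ^ ((1 - 1 / (k : ℝ)) * lamb k l)))))))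
        = (2 ^ 2 * ((k * l + k : ℕ) : ℝ) ^ (2 * k) * (k : ℝ) ^ 3 * 2 ^ ((k ^ 3 + 1) * m) *
          (k.factorial : ℝ) * 2 ^ (40 * k ^ 5 * l ^ 2) * 2 ^ lamb k l) *
          ((N : ℝ) ^ (1 / (k : ℝ) * (m : ℝ)) * (N : ℝ) ^ k *
            (N : ℝ) ^ ((1 - 1 / (k : ℝ)) * lamb k l)) := by ring
      _ ≤ (2 ^ 2 * 2 ^ ((k * (l + 1)) * (2 * k)) * 2 ^ (3 * k) * 2 ^ ((k ^ 3 + 1) * m) *
          2 ^ (k ^ 2) * 2 ^ (40 * k ^ 5 * l ^ 2) * 2 ^ (2 * (k * l))) * (N : ℝ) ^ L := by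
          rw [b3]
          gcongr
      _ = 2 ^ (2 + (k * (l + 1)) * (2 * k) + 3 * k + (k ^ 3 + 1) * m + k ^ 2 +
          40 * k ^ 5 * l ^ 2 + 2 * (k * l)) * (N : ℝ) ^ L := by
          rw [pow_add, pow_add, pow_add, pow_add, pow_add, pow_add]
      _ ≤ 2 ^ X * (N : ℝ) ^ L := by
          refine mul_le_mul_of_nonneg_right ?_ hNL.le
          exact pow_le_pow_right₀ (by norm_num) (closed_arith2 k l hk)
  linarith

theorem vmvt (k l N : ℕ) (hk : 2 ≤ k) (hl : 1 ≤ l) (hN : 1 ≤ N) :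
    (J k (k * l) N : ℝ) ≤ 2 ^ (40 * k ^ 5 * l ^ 2) * (N : ℝ) ^ lamb k l := by
  induction l, hl using Nat.le_induction generalizing N with
  | base =>
    have h1 : (J k (k * 1) N : ℝ) ≤ (k.factorial : ℝ) * (N : ℝ) ^ k := by
      rw [mul_one]
      exact_mod_cast base k N
    have h2 : lamb k 1 = k := by
      unfold lamb
      simp
      ring
    rw [h2, Real.rpow_natCast]
    refine h1.trans (mul_le_mul_of_nonneg_right ?_ (by positivity))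
    refine (closed_fact k).trans (pow_le_pow_right₀ (by norm_num) ?_)
    have h3 : k ^ 2 ≤ k ^ 5 := Nat.pow_le_pow_right (by omega) (by norm_num)
    omega
  | succ l hl ih =>
    rcases Nat.lt_or_ge N (k ^ k) with h | h
    · exact closed_small k l N hk hN h.le
    · exact closed_step k l N hk hl h (fun M hM => ih M hM)

end Pool.Agent.H43.VM
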