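import Mathlib

/-!
# Vinogradov's mean value theorem (H43/VM): definitions and plan

`J k s N` counts the pairs of `s`-tuples from `{1..N}` whose power sums with the exponents `1..k`
agree. Final theorem (`Closed.lean`): for `k >= 2`, `l >= 1`, `N >= 1`

  `J k (k*l) N <= 2^(40 k^5 l^2) * N^(2kl - k(k+1)/2 + (k(k-1)/2)(1-1/k)^(l-1))`.

Plan (Linnik, Karatsuba).
* `Good`: up to a trivial part one may assume that in both tuples the first `k` entries are pairwise
  different integers (`Q k t N`, `s = t + k`).
* `PrSel`: among `k^3` primes `p` with `N <= p^k` at least one does not divide the product of all the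
  differences, so `Q <= sum over p of V k t N p` (first `k` entries pairwise different mod `p`).
* `Hold`, `SplitV`: Hoelder's inequality: the remaining `t` variables may be taken in one and the same
  class mod `p`, at the cost `p^(2t)`.
* `Linnik` (with `Newt`): the number of `x` in a box of side `<= p^k`, pairwise different mod `p`, with
  prescribed `j`-th power sums mod `p^j` (`j = 1..k`) is at most `k! p^(k(k-1)/2)`.
* `Trans`: the remaining variables are counted by `J k t (N/p+1)`.
* `Primes`, `Recu`, `Base`, `Closed`: the recursion `t -> t + k` and its solution.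
-/

namespace Pool.Agent.H43.VM

open Finset

/-- the power sums with the exponents `1..k` of an integer tuple -/
def ps {ι : Type*} [Fintype ι] (k : ℕ) (x : ι → ℤ) : Fin k → ℤ :=
  fun j => ∑ i, x i ^ ((j : ℕ) + 1)

/-- the box `{1..N}^s` -/
noncomputable def box (s N : ℕ) : Finset (Fin s → ℤ) := Fintype.piFinset fun _ => Icc (1 : ℤ) (N : ℤ)

/-- Vinogradov's `J_{s,k}(N)` -/
noncomputable def J (k s N : ℕ) : ℕ :=
  ((box s N ×ˢ box s N).filter fun q => ps k q.1 = ps k q.2).card

/-- the entries are pairwise different modulo `p` -/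
def DMod (p : ℕ) {k : ℕ} (x : Fin k → ℤ) : Prop := ∀ i j, x i ≡ x j [ZMOD (p : ℤ)] → i = j

instance (p : ℕ) {k : ℕ} (x : Fin k → ℤ) : Decidable (DMod p x) := by
  unfold DMod; infer_instance

/-- pairs `(x,u)`, `(y,v)` with equal total power sums, `x` and `y` injective -/
noncomputable def Q (k t N : ℕ) : ℕ :=
  (((box k N ×ˢ box t N) ×ˢ (box k N ×ˢ box t N)).filter fun q =>
    Function.Injective q.1.1 ∧ Function.Injective q.2.1 ∧
      ps k q.1.1 + ps k q.1.2 = ps k q.2.1 + ps k q.2.2).card

/-- the same with `x` and `y` injective modulo `p` -/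
noncomputable def V (k t N p : ℕ) : ℕ :=
  (((box k N ×ˢ box t N) ×ˢ (box k N ×ˢ box t N)).filter fun q =>
    DMod p q.1.1 ∧ DMod p q.2.1 ∧
      ps k q.1.1 + ps k q.1.2 = ps k q.2.1 + ps k q.2.2).card

/-- the same with all entries of `u` and `v` congruent to `a` modulo `p` -/
noncomputable def Va (k t N p : ℕ) (a : ℤ) : ℕ :=
  (((box k N ×ˢ box t N) ×ˢ (box k N ×ˢ box t N)).filter fun q =>
    DMod p q.1.1 ∧ DMod p q.2.1 ∧ (∀ i, q.1.2 i ≡ a [ZMOD (p : ℤ)]) ∧
      (∀ i, q.2.2 i ≡ a [ZMOD (p : ℤ)]) ∧
      ps k q.1.1 + ps k q.1.2 = ps k q.2.1 + ps k q.2.2).card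

end Pool.Agent.H43.VM
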