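import Pool.Agent.H43.VM.Defs

/-!
# [H43 VM GOOD] Reduction to tuples whose first `k` entries are different

`J k (t+k) N <= 2 (k^(t+k) N^(k-1))^2 + 2 (t+k)^(2k) Q k t N` for `k, N >= 1`.

PROOF. Let `s = t+k`, `X = box s N`. Call `x ∈ X` bad if it has fewer than `k` different values
(`(univ.image x).card < k`), good otherwise.
(1) The number of bad `x` is at most `N^(k-1) k^s`: every bad `x` is `w ∘ c` for some
`w : Fin (k-1) → Icc 1 N` and `c : Fin s → Fin (k-1)` (for `k = 1` there is no bad `x`, as `s >= 1`).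
(2) For a value `v` of `ps k` let `a_v`, `b_v` be the numbers of good and bad `x` with `ps k x = v`.
`J = Σ_v (a_v+b_v)^2 <= 2 Σ a_v^2 + 2 Σ b_v^2` and `Σ b_v^2 <= (Σ b_v)^2 <= (N^(k-1) k^s)^2`.
`Σ a_v^2` is the number of pairs `(x,y)` of good tuples with `ps k x = ps k y`.
(3) A good `x` has an embedding `e : Fin k ↪ Fin s` with `x ∘ e` injective. There are at most `s^k`
embeddings. For fixed `e`, `e'` the number of pairs `(x,y) ∈ X^2` with `x ∘ e`, `y ∘ e'` injective
and `ps k x = ps k y` is `Q k t N`: extend `e` to a bijection `Fin k ⊕ Fin t ≃ Fin s` (the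
complement of the range of `e` has `t` elements), `x ↦ (x ∘ e, x restricted to the complement)`, power
sums add up. Hence `Σ a_v^2 <= s^(2k) Q`.
(To compare counts it is enough to have an injection from the pairs `(x,y)` for `e,e'` to the set of
`Q`.)
-/

namespace Pool.Agent.H43.VM

open Finset

theorem good_sq (a b : ℕ) : (a + b) ^ 2 ≤ 2 * a ^ 2 + 2 * b ^ 2 := by
  have h : ((a : ℤ) + b) ^ 2 ≤ 2 * a ^ 2 + 2 * b ^ 2 := by nlinarith [sq_nonneg ((a : ℤ) - b)]
  exact_mod_cast h

theorem good_pairs {α γ : Type*} [DecidableEq α] [DecidableEq γ] (S : Finset α) (f : α → γ)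
    (V : Finset γ) (hV : ∀ x ∈ S, f x ∈ V) :
    ((S ×ˢ S).filter fun q => f q.1 = f q.2).card =
      ∑ v ∈ V, (S.filter fun x => f x = v).card ^ 2 := by
  rw [Finset.card_eq_sum_card_fiberwise (f := fun q : α × α => f q.1) (t := V)]
  · refine Finset.sum_congr rfl (fun v _ => ?_)
    rw [sq, ← Finset.card_product]
    congr 1
    ext q
    simp only [Finset.mem_filter, Finset.mem_product]
    constructor
    · rintro ⟨⟨⟨h1, h2⟩, h3⟩, h4⟩
      exact ⟨⟨h1, h4⟩, ⟨h2, h3 ▸ h4⟩⟩
    · rintro ⟨⟨h1, h2⟩, ⟨h3, h4⟩⟩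
      exact ⟨⟨⟨h1, h3⟩, h2.trans h4.symm⟩, h2⟩
  · intro q hq
    have hq' := (Finset.mem_filter.1 (Finset.mem_coe.1 hq)).1
    exact Finset.mem_coe.2 (hV _ (Finset.mem_product.1 hq').1)

theorem good_split2 {α γ : Type*} [DecidableEq α] [DecidableEq γ] (S : Finset α) (f : α → γ)
    (P : α → Prop) [DecidablePred P] :
    ((S ×ˢ S).filter fun q => f q.1 = f q.2).card ≤
      2 * (((S.filter P) ×ˢ (S.filter P)).filter fun q => f q.1 = f q.2).card +
      2 * (S.filter fun x => ¬ P x).card ^ 2 := by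
  have h1 := good_pairs S f (S.image f) (fun x hx => Finset.mem_image_of_mem f hx)
  have h2 := good_pairs (S.filter P) f (S.image f)
    (fun x hx => Finset.mem_image_of_mem f (Finset.mem_filter.1 hx).1)
  have h3 := good_pairs (S.filter fun x => ¬ P x) f (S.image f)
    (fun x hx => Finset.mem_image_of_mem f (Finset.mem_filter.1 hx).1)
  have h4 : ((((S.filter fun x => ¬ P x) ×ˢ (S.filter fun x => ¬ P x))).filter
      fun q => f q.1 = f q.2).card ≤ (S.filter fun x => ¬ P x).card ^ 2 := by
    refine (Finset.card_filter_le _ _).trans ?_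
    rw [Finset.card_product, sq]
  rw [h3] at h4
  rw [h1, h2]
  refine le_trans ?_ (Nat.add_le_add_left (Nat.mul_le_mul_left 2 h4) _)
  rw [Finset.mul_sum, Finset.mul_sum, ← Finset.sum_add_distrib]
  refine Finset.sum_le_sum (fun v _ => ?_)
  have h5 : (S.filter fun x => f x = v).card =
      ((S.filter P).filter fun x => f x = v).card +
      ((S.filter fun x => ¬ P x).filter fun x => f x = v).card := by
    rw [Finset.filter_filter, Finset.filter_filter,
      ← Finset.card_filter_add_card_filter_not (s := S.filter fun x => f x = v) P,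
      Finset.filter_filter, Finset.filter_filter]
    congr 1
    · congr 1
      ext x
      simp only [Finset.mem_filter]
      tauto
    · congr 1
      ext x
      simp only [Finset.mem_filter]
      tauto
  rw [h5]
  exact good_sq _ _

/-- the number of bad tuples -/
theorem good_bad (k s N : ℕ) (hk : 1 ≤ k) (hs : 1 ≤ s) :
    ((box s N).filter fun x => ¬ k ≤ (univ.image x).card).card ≤ k ^ s * N ^ (k - 1) := by
  have hsub : ((box s N).filter fun x => ¬ k ≤ (univ.image x).card) ⊆
      Finset.image (fun q : (Fin (k - 1) → ℤ) × (Fin s → Fin (k - 1)) => q.1 ∘ q.2)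
        ((Fintype.piFinset fun _ : Fin (k - 1) => Icc (1 : ℤ) (N : ℤ)) ×ˢ
          (univ : Finset (Fin s → Fin (k - 1)))) := by
    intro x hx
    rw [Finset.mem_filter] at hx
    obtain ⟨hx1, hx2⟩ := hx
    have hx3 : ∀ i, x i ∈ Icc (1 : ℤ) (N : ℤ) := by
      unfold box at hx1
      exact Fintype.mem_piFinset.1 hx1
    have hI : Fintype.card (univ.image x) = (univ.image x).card := Fintype.card_coe _
    have hemb : Nonempty ({v // v ∈ univ.image x} ↪ Fin (k - 1)) := by
      apply Function.Embedding.nonempty_of_card_le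
      rw [hI, Fintype.card_fin]
      omega
    obtain ⟨e⟩ := hemb
    have hmem : ∀ i, x i ∈ univ.image x := fun i => Finset.mem_image_of_mem x (Finset.mem_univ i)
    have hne : Nonempty {v // v ∈ univ.image x} := ⟨⟨x ⟨0, hs⟩, hmem _⟩⟩
    rw [Finset.mem_image]
    refine ⟨(fun j => (Function.invFun e j : {v // v ∈ univ.image x}).1, fun i => e ⟨x i, hmem i⟩), ?_, ?_⟩
    · rw [Finset.mem_product]
      refine ⟨?_, Finset.mem_univ _⟩
      rw [Fintype.mem_piFinset]
      intro j
      obtain ⟨i, -, hi⟩ := Finset.mem_image.1 (Function.invFun e j : {v // v ∈ univ.image x}).2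
      change (Function.invFun e j : {v // v ∈ univ.image x}).1 ∈ _
      rw [← hi]
      exact hx3 i
    · funext i
      change (Function.invFun e (e ⟨x i, hmem i⟩) : {v // v ∈ univ.image x}).1 = x i
      rw [Function.leftInverse_invFun e.injective]
  refine (Finset.card_le_card hsub).trans (Finset.card_image_le.trans ?_)
  rw [Finset.card_product, Fintype.card_piFinset, Finset.card_univ, Fintype.card_fun]
  simp only [Int.card_Icc, Finset.prod_const, Finset.card_univ, Fintype.card_fin]
  have h1 : ((N : ℤ) + 1 - 1).toNat = N := by simp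
  rw [h1, mul_comm]
  exact Nat.mul_le_mul_right _ (Nat.pow_le_pow_left (by omega) s)

/-- an injection onto which a good tuple is injective -/
theorem good_emb {k s : ℕ} (x : Fin s → ℤ) (h : k ≤ (univ.image x).card) :
    ∃ e : Fin k → Fin s, Function.Injective (x ∘ e) := by
  have hI : Fintype.card (univ.image x) = (univ.image x).card := Fintype.card_coe _
  have hemb : Nonempty (Fin k ↪ {v // v ∈ univ.image x}) := by
    apply Function.Embedding.nonempty_of_card_le
    rw [hI, Fintype.card_fin]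
    exact h
  obtain ⟨f⟩ := hemb
  have hc : ∀ v : {v // v ∈ univ.image x}, ∃ i, x i = v.1 := by
    intro v
    obtain ⟨i, -, hi⟩ := Finset.mem_image.1 v.2
    exact ⟨i, hi⟩
  choose g hg using hc
  refine ⟨fun j => g (f j), ?_⟩
  intro a b hab
  have h1 : x (g (f a)) = x (g (f b)) := hab
  rw [hg, hg] at h1
  exact f.injective (Subtype.ext h1)

theorem good_compl {k t : ℕ} (e : Fin k → Fin (t + k)) (he : Function.Injective e) :
    ∃ e' : Fin t → Fin (t + k), Function.Bijective (Sum.elim e e') := by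
  classical
  have hcard : Fintype.card {i // i ∉ Set.range e} = t := by
    rw [Fintype.card_subtype_compl, Fintype.card_fin]
    have : Fintype.card {x // x ∈ Set.range e} = k := by
      have h := Set.card_range_of_injective he
      rw [Fintype.card_fin] at h
      exact h
    rw [this]
    omega
  let f : Fin t ≃ {i // i ∉ Set.range e} := (Fintype.equivFinOfCardEq hcard).symm
  refine ⟨fun j => (f j).1, ?_, ?_⟩
  · rintro (a | a) (b | b) hab
    · exact congrArg Sum.inl (he hab)
    · exact absurd ⟨a, hab⟩ (f b).2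
    · exact absurd ⟨b, hab.symm⟩ (f a).2
    · exact congrArg Sum.inr (f.injective (Subtype.ext hab))
  · intro i
    by_cases hi : i ∈ Set.range e
    · obtain ⟨j, hj⟩ := hi
      exact ⟨Sum.inl j, hj⟩
    · refine ⟨Sum.inr (f.symm ⟨i, hi⟩), ?_⟩
      change (f (f.symm ⟨i, hi⟩)).1 = i
      rw [Equiv.apply_symm_apply]

theorem good_ps {k t : ℕ} (e : Fin k → Fin (t + k)) (e' : Fin t → Fin (t + k))
    (hb : Function.Bijective (Sum.elim e e')) (x : Fin (t + k) → ℤ) :
    ps k x = ps k (x ∘ e) + ps k (x ∘ e') := by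
  funext j
  unfold ps
  rw [Pi.add_apply, ← hb.sum_comp (fun i => x i ^ ((j : ℕ) + 1)), Fintype.sum_sum_type]
  rfl

theorem good_fib (k t N : ℕ) (e1 e2 : Fin k → Fin (t + k)) (he1 : Function.Injective e1)
    (he2 : Function.Injective e2) :
    ((box (t + k) N ×ˢ box (t + k) N).filter fun q => Function.Injective (q.1 ∘ e1) ∧
      Function.Injective (q.2 ∘ e2) ∧ ps k q.1 = ps k q.2).card ≤ Q k t N := by
  obtain ⟨f1, h1⟩ := good_compl e1 he1
  obtain ⟨f2, h2⟩ := good_compl e2 he2
  have hbox : ∀ {a : ℕ} (x : Fin (t + k) → ℤ) (g : Fin a → Fin (t + k)), x ∈ box (t + k) N →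
      x ∘ g ∈ box a N := by
    intro a x g hx
    unfold box at hx ⊢
    rw [Fintype.mem_piFinset] at hx ⊢
    exact fun i => hx (g i)
  unfold Q
  refine Finset.card_le_card_of_injOn
    (fun q => ((q.1 ∘ e1, q.1 ∘ f1), (q.2 ∘ e2, q.2 ∘ f2))) ?_ ?_
  · intro q hq
    have hq' := Finset.mem_filter.1 (Finset.mem_coe.1 hq)
    obtain ⟨hq1, hq2, hq3, hq4⟩ := hq'
    rw [Finset.mem_product] at hq1
    refine Finset.mem_coe.2 (Finset.mem_filter.2 ⟨?_, hq2, hq3, ?_⟩)
    · rw [Finset.mem_product, Finset.mem_product, Finset.mem_product]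
      exact ⟨⟨hbox _ _ hq1.1, hbox _ _ hq1.1⟩, ⟨hbox _ _ hq1.2, hbox _ _ hq1.2⟩⟩
    · change ps k (q.1 ∘ e1) + ps k (q.1 ∘ f1) = ps k (q.2 ∘ e2) + ps k (q.2 ∘ f2)
      rw [← good_ps e1 f1 h1, ← good_ps e2 f2 h2, hq4]
  · intro q hq q' hq' hqq
    have key : ∀ (x y : Fin (t + k) → ℤ) (e : Fin k → Fin (t + k)) (f : Fin t → Fin (t + k)),
        Function.Bijective (Sum.elim e f) → x ∘ e = y ∘ e → x ∘ f = y ∘ f → x = y := by
      intro x y e f hb h3 h4
      funext i
      obtain ⟨z, hz⟩ := hb.2 i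
      rw [← hz]
      rcases z with z | z
      · exact congrFun h3 z
      · exact congrFun h4 z
    have h3 : ((q.1 ∘ e1, q.1 ∘ f1), (q.2 ∘ e2, q.2 ∘ f2)) =
        ((q'.1 ∘ e1, q'.1 ∘ f1), (q'.2 ∘ e2, q'.2 ∘ f2)) := hqq
    rw [Prod.mk.injEq, Prod.mk.injEq, Prod.mk.injEq] at h3
    exact Prod.ext (key _ _ e1 f1 h1 h3.1.1 h3.1.2) (key _ _ e2 f2 h2 h3.2.1 h3.2.2)

open Classical in
theorem good (k t N : ℕ) (hk : 1 ≤ k) (hN : 1 ≤ N) :
    J k (t + k) N ≤ 2 * (k ^ (t + k) * N ^ (k - 1)) ^ 2 + 2 * (t + k) ^ (2 * k) * Q k t N := by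
  have h1 := good_split2 (box (t + k) N) (ps k) (fun x => k ≤ (univ.image x).card)
  have h2 := good_bad k (t + k) N hk (by omega)
  have h3 : ((((box (t + k) N).filter fun x => k ≤ (univ.image x).card) ×ˢ
      ((box (t + k) N).filter fun x => k ≤ (univ.image x).card)).filter
      fun q => ps k q.1 = ps k q.2).card ≤ (t + k) ^ (2 * k) * Q k t N := by
    have hex : ∀ x : Fin (t + k) → ℤ, ∃ e : Fin k → Fin (t + k),
        k ≤ (univ.image x).card → Function.Injective (x ∘ e) := by
      intro x
      by_cases hx : k ≤ (univ.image x).card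
      · obtain ⟨e, he⟩ := good_emb x hx
        exact ⟨e, fun _ => he⟩
      · exact ⟨fun j => ⟨j, by omega⟩, fun h => absurd h hx⟩
    choose ex hex using hex
    have h4 := Finset.card_le_mul_card_image_of_maps_to
      (s := (((box (t + k) N).filter fun x => k ≤ (univ.image x).card) ×ˢ
        ((box (t + k) N).filter fun x => k ≤ (univ.image x).card)).filter
        fun q => ps k q.1 = ps k q.2)
      (t := (univ : Finset ((Fin k → Fin (t + k)) × (Fin k → Fin (t + k)))))
      (f := fun q => (ex q.1, ex q.2)) (fun _ _ => Finset.mem_univ _) (Q k t N) (by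
        intro b _
        by_cases hb : Function.Injective b.1 ∧ Function.Injective b.2
        · refine le_trans (Finset.card_le_card ?_) (good_fib k t N b.1 b.2 hb.1 hb.2)
          intro q hq
          rw [Finset.mem_filter, Finset.mem_filter, Finset.mem_product, Finset.mem_filter,
            Finset.mem_filter] at hq
          obtain ⟨⟨⟨⟨g1, g2⟩, ⟨g3, g4⟩⟩, g5⟩, g6⟩ := hq
          rw [Finset.mem_filter, Finset.mem_product]
          refine ⟨⟨g1, g3⟩, ?_, ?_, g5⟩
          · rw [← g6]
            exact hex _ g2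
          · rw [← g6]
            exact hex _ g4
        · rw [Finset.card_eq_zero.2]
          · exact Nat.zero_le _
          · rw [Finset.eq_empty_iff_forall_notMem]
            intro q hq
            rw [Finset.mem_filter, Finset.mem_filter, Finset.mem_product, Finset.mem_filter,
              Finset.mem_filter] at hq
            obtain ⟨⟨⟨⟨g1, g2⟩, ⟨g3, g4⟩⟩, g5⟩, g6⟩ := hq
            apply hb
            rw [← g6]
            exact ⟨(hex _ g2).of_comp, (hex _ g4).of_comp⟩)
    refine h4.trans (le_of_eq ?_)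
    rw [Finset.card_univ, Fintype.card_prod, Fintype.card_fun, Fintype.card_fin, Fintype.card_fin]
    ring
  have h5 : J k (t + k) N = ((box (t + k) N ×ˢ box (t + k) N).filter
      fun q => ps k q.1 = ps k q.2).card := rfl
  rw [h5]
  refine h1.trans ?_
  have h6 := Nat.pow_le_pow_left h2 2
  have h7 := Nat.mul_le_mul_left 2 h3
  have h8 := Nat.mul_le_mul_left 2 h6
  calc _ ≤ 2 * ((t + k) ^ (2 * k) * Q k t N) + 2 * (k ^ (t + k) * N ^ (k - 1)) ^ 2 :=
        Nat.add_le_add h7 h8
    _ = _ := by ring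

end Pool.Agent.H43.VM
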