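import Pool.Agent.H43.VM.Defs

/-!
# [H43 VM HOLD] Hoelder's inequality for numbers of solutions

`A`, `U` finite sets with maps `φ`, `ψ` to `ℤ^k`, and a colouring `c` of `U` with colours `0..p-1`.
The number of `(x,u),(y,v)`, `x,y ∈ A`, `u,v ∈ U^t`, with `φ x + Σ ψ(u_i) = φ y + Σ ψ(v_i)` is at most
`p^(2t-1)` times the sum over the colours `a` of the number of those solutions in which all `u_i` and
all `v_i` have colour `a`.

PROOF. All integer vectors that occur have coordinates bounded by some `B`; let `R = 2B+1`, so that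
equality in `ℤ^k` is equivalent to equality in `G = (Fin k → ZMod R)`. Expand `‖F χ‖^2 ‖P χ‖^(2t)`,
`χ` an additive character of `G`, and use orthogonality and the power mean inequality
`‖P χ‖^(2t) <= p^(2t-1) Σ_a ‖P_a χ‖^(2t)`.
-/

namespace Pool.Agent.H43.VM

open Finset

/-- orthogonality: the number of pairs with equal values is a mean value -/
theorem hold_orth {G σ : Type*} [AddCommGroup G] [Fintype G] [DecidableEq G]
    (S : Finset σ) (f : σ → G) :
    (Fintype.card G : ℝ) * (((S ×ˢ S).filter fun q => f q.1 = f q.2).card : ℝ) =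
      ∑ χ : AddChar G ℂ, ‖∑ s ∈ S, χ (f s)‖ ^ 2 := by
  have h1 : ∀ χ : AddChar G ℂ, ((‖∑ s ∈ S, χ (f s)‖ ^ 2 : ℝ) : ℂ) =
      ∑ s ∈ S, ∑ s' ∈ S, χ (f s - f s') := by
    intro χ
    rw [Complex.ofReal_pow, ← Complex.mul_conj', map_sum, Finset.sum_mul_sum]
    refine Finset.sum_congr rfl fun s _ => Finset.sum_congr rfl fun s' _ => ?_
    rw [sub_eq_add_neg, AddChar.map_add_eq_mul, AddChar.map_neg_eq_conj]
  have h2 : (((Fintype.card G : ℝ) * (((S ×ˢ S).filter fun q => f q.1 = f q.2).card : ℝ) : ℝ) : ℂ) =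
      ((∑ χ : AddChar G ℂ, ‖∑ s ∈ S, χ (f s)‖ ^ 2 : ℝ) : ℂ) := by
    rw [Complex.ofReal_sum, Finset.sum_congr rfl fun χ _ => h1 χ, Finset.sum_comm]
    have h3 : ∀ s ∈ S, ∑ χ : AddChar G ℂ, ∑ s' ∈ S, χ (f s - f s') =
        ∑ s' ∈ S, if f s = f s' then (Fintype.card G : ℂ) else 0 := by
      intro s _
      rw [Finset.sum_comm]
      refine Finset.sum_congr rfl fun s' _ => ?_
      rw [AddChar.sum_apply_eq_ite]
      simp only [sub_eq_zero]
    rw [Finset.sum_congr rfl h3]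
    have h4 : ∑ s ∈ S, ∑ s' ∈ S, (if f s = f s' then (Fintype.card G : ℂ) else 0) =
        ∑ q ∈ S ×ˢ S, (if f q.1 = f q.2 then (Fintype.card G : ℂ) else 0) := by
      rw [Finset.sum_product]
    rw [h4, ← Finset.sum_filter, Finset.sum_const, nsmul_eq_mul]
    push_cast
    ring
  exact_mod_cast h2

/-- reduction modulo a large number is injective on a finite set of integer vectors -/
theorem hold_red {σ : Type*} {k : ℕ} (S : Finset σ) (f : σ → Fin k → ℤ) :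
    ∃ R : ℕ, 0 < R ∧ ∀ s ∈ S, ∀ s' ∈ S,
      ((fun j => ((f s j : ℤ) : ZMod R)) = fun j => ((f s' j : ℤ) : ZMod R)) ↔ f s = f s' := by
  classical
  set B : ℕ := ∑ s ∈ S, ∑ j, (f s j).natAbs with hB
  have hb : ∀ s ∈ S, ∀ j, (f s j).natAbs ≤ B := by
    intro s hs j
    calc (f s j).natAbs ≤ ∑ j, (f s j).natAbs :=
          Finset.single_le_sum (f := fun j => (f s j).natAbs) (fun _ _ => Nat.zero_le _)
            (Finset.mem_univ j)
      _ ≤ B := Finset.single_le_sum (f := fun s => ∑ j, (f s j).natAbs)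
            (fun _ _ => Nat.zero_le _) hs
  refine ⟨2 * B + 1, by omega, fun s hs s' hs' => ⟨fun h => ?_, fun h => by rw [h]⟩⟩
  funext j
  have h1 : ((f s j : ℤ) : ZMod (2 * B + 1)) = ((f s' j : ℤ) : ZMod (2 * B + 1)) := congrFun h j
  rw [ZMod.intCast_eq_intCast_iff_dvd_sub] at h1
  have h2 := hb s hs j
  have h3 := hb s' hs' j
  have h4 : f s' j - f s j = 0 := by
    apply Int.eq_zero_of_abs_lt_dvd h1
    push_cast
    rw [abs_lt]
    constructor <;> omega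
  omega

/-- the power mean inequality for a colouring -/
theorem hold_pow {β : Type*} [DecidableEq β] (U : Finset β) (g : β → ℂ) (p : ℕ) (c : β → ℕ)
    (hc : ∀ u ∈ U, c u < p) (t : ℕ) (ht : 1 ≤ t) :
    ‖∑ u ∈ U, g u‖ ^ (2 * t) ≤
      (p : ℝ) ^ (2 * t - 1) * ∑ a ∈ range p, ‖∑ u ∈ U.filter (fun u => c u = a), g u‖ ^ (2 * t) := by
  have h1 : ∑ u ∈ U, g u = ∑ a ∈ range p, ∑ u ∈ U.filter (fun u => c u = a), g u := by
    rw [Finset.sum_fiberwise_of_maps_to]
    intro u hu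
    exact Finset.mem_range.2 (hc u hu)
  obtain ⟨m, hm⟩ : ∃ m, 2 * t = m + 1 := ⟨2 * t - 1, by omega⟩
  have h2 := pow_sum_le_card_mul_sum_pow (s := range p)
    (f := fun a => ‖∑ u ∈ U.filter (fun u => c u = a), g u‖) (fun _ _ => norm_nonneg _) m
  rw [h1, hm, Nat.add_sub_cancel]
  rw [Finset.card_range] at h2
  refine le_trans ?_ h2
  exact pow_le_pow_left₀ (norm_nonneg _) (norm_sum_le _ _) _

/-- the exponential sum over the tuples factors -/
theorem hold_factor {G α β : Type*} [AddCommGroup G] [DecidableEq α] [DecidableEq β]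
    (χ : AddChar G ℂ) (A : Finset α) (U : Finset β) (φ : α → G) (ψ : β → G) (t : ℕ) :
    ∑ s ∈ A ×ˢ Fintype.piFinset (fun _ : Fin t => U), χ (φ s.1 + ∑ i, ψ (s.2 i)) =
      (∑ x ∈ A, χ (φ x)) * (∑ u ∈ U, χ (ψ u)) ^ t := by
  have h1 : (∑ u ∈ U, χ (ψ u)) ^ t = ∑ u ∈ Fintype.piFinset (fun _ : Fin t => U),
      ∏ i, χ (ψ (u i)) := by
    have h := Finset.prod_univ_sum (fun _ : Fin t => U) (fun _ u => χ (ψ u))
    rw [← h]
    simp
  rw [h1, Finset.sum_mul_sum, Finset.sum_product]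
  refine Finset.sum_congr rfl fun x _ => Finset.sum_congr rfl fun u _ => ?_
  rw [AddChar.map_add_eq_mul]
  congr 1
  have h2 : ∀ (I : Finset (Fin t)) (g : Fin t → G), χ (∑ i ∈ I, g i) = ∏ i ∈ I, χ (g i) := by
    intro I g
    induction I using Finset.induction_on with
    | empty => simp
    | insert a I ha ih => rw [Finset.sum_insert ha, Finset.prod_insert ha, AddChar.map_add_eq_mul, ih]
  exact h2 Finset.univ _

theorem hold {α β : Type*} [DecidableEq α] [DecidableEq β] {k : ℕ} (A : Finset α) (U : Finset β)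
    (φ : α → Fin k → ℤ) (ψ : β → Fin k → ℤ) (p : ℕ) (c : β → ℕ) (hc : ∀ u ∈ U, c u < p)
    (t : ℕ) (ht : 1 ≤ t) :
    (((A ×ˢ Fintype.piFinset fun _ : Fin t => U) ×ˢ
        (A ×ˢ Fintype.piFinset fun _ : Fin t => U)).filter fun q =>
      φ q.1.1 + ∑ i, ψ (q.1.2 i) = φ q.2.1 + ∑ i, ψ (q.2.2 i)).card ≤
    p ^ (2 * t - 1) * ∑ a ∈ range p,
      (((A ×ˢ Fintype.piFinset fun _ : Fin t => U) ×ˢ
        (A ×ˢ Fintype.piFinset fun _ : Fin t => U)).filter fun q =>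
        (∀ i, c (q.1.2 i) = a) ∧ (∀ i, c (q.2.2 i) = a) ∧
        φ q.1.1 + ∑ i, ψ (q.1.2 i) = φ q.2.1 + ∑ i, ψ (q.2.2 i)).card := by
  classical
  set S : Finset (α × (Fin t → β)) := A ×ˢ Fintype.piFinset fun _ : Fin t => U with hS
  set f : α × (Fin t → β) → Fin k → ℤ := fun s => φ s.1 + ∑ i, ψ (s.2 i) with hf
  obtain ⟨R, hR, hred⟩ := hold_red S f
  have : NeZero R := ⟨hR.ne'⟩
  set φ' : α → Fin k → ZMod R := fun x j => ((φ x j : ℤ) : ZMod R) with hφ'
  set ψ' : β → Fin k → ZMod R := fun x j => ((ψ x j : ℤ) : ZMod R) with hψ'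
  set f' : α × (Fin t → β) → Fin k → ZMod R := fun s => φ' s.1 + ∑ i, ψ' (s.2 i) with hf'
  have hff' : ∀ s, f' s = fun j => ((f s j : ℤ) : ZMod R) := by
    intro s
    funext j
    simp [hf', hf, hφ', hψ', Finset.sum_apply]
  set Sa : ℕ → Finset (α × (Fin t → β)) := fun a =>
    A ×ˢ Fintype.piFinset fun _ : Fin t => U.filter (fun u => c u = a) with hSa
  have hSaS : ∀ a, Sa a ⊆ S := by
    intro a s hs
    simp only [hSa, hS, Finset.mem_product, Fintype.mem_piFinset, Finset.mem_filter] at hs ⊢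
    exact ⟨hs.1, fun i => (hs.2 i).1⟩
  have e1 : ((S ×ˢ S).filter fun q => φ q.1.1 + ∑ i, ψ (q.1.2 i) = φ q.2.1 + ∑ i, ψ (q.2.2 i)) =
      (S ×ˢ S).filter fun q => f' q.1 = f' q.2 := by
    apply Finset.filter_congr
    intro q hq
    rw [Finset.mem_product] at hq
    rw [hff', hff', hred _ hq.1 _ hq.2]
  have e2 : ∀ a, ((S ×ˢ S).filter fun q => (∀ i, c (q.1.2 i) = a) ∧ (∀ i, c (q.2.2 i) = a) ∧
        φ q.1.1 + ∑ i, ψ (q.1.2 i) = φ q.2.1 + ∑ i, ψ (q.2.2 i)) =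
      (Sa a ×ˢ Sa a).filter fun q => f' q.1 = f' q.2 := by
    intro a
    ext q
    simp only [Finset.mem_filter, Finset.mem_product]
    constructor
    · rintro ⟨⟨h1, h2⟩, h3, h4, h5⟩
      refine ⟨⟨?_, ?_⟩, ?_⟩
      · simp only [hSa, hS, Finset.mem_product, Fintype.mem_piFinset, Finset.mem_filter] at h1 ⊢
        exact ⟨h1.1, fun i => ⟨h1.2 i, h3 i⟩⟩
      · simp only [hSa, hS, Finset.mem_product, Fintype.mem_piFinset, Finset.mem_filter] at h2 ⊢
        exact ⟨h2.1, fun i => ⟨h2.2 i, h4 i⟩⟩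
      · rw [hff', hff', hred _ h1 _ h2]
        exact h5
    · rintro ⟨⟨h1, h2⟩, h3⟩
      have h1' := hSaS a h1
      have h2' := hSaS a h2
      rw [hff', hff', hred _ h1' _ h2'] at h3
      refine ⟨⟨h1', h2'⟩, ?_, ?_, h3⟩
      · intro i
        simp only [hSa, Finset.mem_product, Fintype.mem_piFinset, Finset.mem_filter] at h1
        exact (h1.2 i).2
      · intro i
        simp only [hSa, Finset.mem_product, Fintype.mem_piFinset, Finset.mem_filter] at h2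
        exact (h2.2 i).2
  rw [e1, Finset.sum_congr rfl fun a _ => by rw [e2 a]]
  have hG : (0 : ℝ) < (Fintype.card (Fin k → ZMod R) : ℝ) := by
    exact_mod_cast Fintype.card_pos
  have key : (Fintype.card (Fin k → ZMod R) : ℝ) *
      (((S ×ˢ S).filter fun q => f' q.1 = f' q.2).card : ℝ) ≤
      (Fintype.card (Fin k → ZMod R) : ℝ) * ((p : ℝ) ^ (2 * t - 1) * ∑ a ∈ range p,
        (((Sa a ×ˢ Sa a).filter fun q => f' q.1 = f' q.2).card : ℝ)) := by
    have r1 : (Fintype.card (Fin k → ZMod R) : ℝ) * ((p : ℝ) ^ (2 * t - 1) * ∑ a ∈ range p,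
        (((Sa a ×ˢ Sa a).filter fun q => f' q.1 = f' q.2).card : ℝ)) =
        (p : ℝ) ^ (2 * t - 1) * ∑ a ∈ range p, (Fintype.card (Fin k → ZMod R) : ℝ) *
          (((Sa a ×ˢ Sa a).filter fun q => f' q.1 = f' q.2).card : ℝ) := by
      rw [← Finset.mul_sum]; ring
    rw [r1, hold_orth]
    simp_rw [hold_orth]
    rw [Finset.sum_comm, Finset.mul_sum]
    refine Finset.sum_le_sum fun χ _ => ?_
    have n1 : ‖∑ s ∈ S, χ (f' s)‖ ^ 2 =
        ‖∑ x ∈ A, χ (φ' x)‖ ^ 2 * ‖∑ u ∈ U, χ (ψ' u)‖ ^ (2 * t) := by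
      rw [hS, hf', hold_factor, norm_mul, norm_pow, mul_pow, ← pow_mul, mul_comm t 2]
    have n2 : ∀ a, ‖∑ s ∈ Sa a, χ (f' s)‖ ^ 2 =
        ‖∑ x ∈ A, χ (φ' x)‖ ^ 2 *
          ‖∑ u ∈ U.filter (fun u => c u = a), χ (ψ' u)‖ ^ (2 * t) := by
      intro a
      rw [hSa, hf', hold_factor, norm_mul, norm_pow, mul_pow, ← pow_mul, mul_comm t 2]
    rw [n1, Finset.sum_congr rfl fun a _ => n2 a, ← Finset.mul_sum]
    have h3 := hold_pow U (fun u => χ (ψ' u)) p c hc t ht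
    calc ‖∑ x ∈ A, χ (φ' x)‖ ^ 2 * ‖∑ u ∈ U, χ (ψ' u)‖ ^ (2 * t)
        ≤ ‖∑ x ∈ A, χ (φ' x)‖ ^ 2 * ((p : ℝ) ^ (2 * t - 1) * ∑ a ∈ range p,
          ‖∑ u ∈ U.filter (fun u => c u = a), χ (ψ' u)‖ ^ (2 * t)) :=
          mul_le_mul_of_nonneg_left h3 (by positivity)
      _ = _ := by ring
  have key2 := le_of_mul_le_mul_left key hG
  exact_mod_cast key2

end Pool.Agent.H43.VM
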