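import Pool.Agent.H43.VM.Newt

/-!
# [H43 VM LINNIK] Linnik's lemma

`p` prime, `1 <= k < p`, `N <= p^k`. The number of integer `k`-tuples in `{b+1..b+N}^k`, pairwise
different mod `p`, with `Σ_i x_i^j ≡ h_j (mod p^j)` for `j = 1..k`, is at most `k! p^(k(k-1)/2)`.

PROOF. The reduction mod `p^k` is injective on an interval of at most `p^k` consecutive integers, and
`x_i - x_j` not divisible by `p` means that the difference is a unit of `ZMod (p^k)`
(`ZMod.isUnit_iff_coprime`, `ZMod.intCast_...`). For the image `X` of `x` the power sum vector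
`g = (Σ X_i^j)_j` in `ZMod (p^k)` satisfies: `g j` reduces to `h j` modulo `p^(j+1)` (0-based `j`).
Partition the tuples by `g`. The number of `g : Fin k → ZMod (p^k)` with `g j ≡ h j mod p^(j+1)` is
`∏_j p^(k-(j+1)) = p^(k(k-1)/2)` (number of residues mod `p^k` above one residue mod `p^(j+1)`:
`p^(k-j-1)`; `∑_{j<k} (k-1-j) = k(k-1)/2`, `Finset.sum_range_id`; `Fintype.card_piFinset`), and each
fibre has at most `k!` elements by `newt` with `m = k`. Conclude with
`Finset.card_le_mul_card_image` or `Finset.card_eq_sum_card_fiberwise`.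
-/

namespace Pool.Agent.H43.VM

open Finset

theorem linnik_mf {α : Type*} {s : Finset α} {p : α → Prop} {inst : DecidablePred p} {x : α}
    (h : x ∈ @Finset.filter α p inst s) : p x := (Finset.mem_filter.1 h).2

theorem linnik_fm {α : Type*} {s : Finset α} {p : α → Prop} {inst : DecidablePred p} {x : α}
    (hx : x ∈ s) (h : p x) : x ∈ @Finset.filter α p inst s := Finset.mem_filter.2 ⟨hx, h⟩

theorem linnik_res (p k l : ℕ) (hp : p.Prime) (hl : l ≤ k) [NeZero (p ^ k)] (c : ZMod (p ^ l)) :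
    ((univ : Finset (ZMod (p ^ k))).filter fun z =>
      (ZMod.castHom (pow_dvd_pow p hl) (ZMod (p ^ l))) z = c).card ≤ p ^ (k - l) := by
  have h0 : (range (p ^ (k - l))).card = p ^ (k - l) := Finset.card_range _
  rw [← h0]
  have hpl : 0 < p ^ l := pow_pos hp.pos l
  refine Finset.card_le_card_of_injOn (fun z => z.val / p ^ l) ?_ ?_
  · intro z _
    refine Finset.mem_coe.2 (Finset.mem_range.2 ?_)
    rw [Nat.div_lt_iff_lt_mul hpl, ← pow_add, Nat.sub_add_cancel hl]
    exact z.val_lt
  · intro z hz w hw hzw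
    have key : ∀ y : ZMod (p ^ k), (ZMod.castHom (pow_dvd_pow p hl) (ZMod (p ^ l))) y = c →
        y.val % p ^ l = c.val := by
      intro y hy
      have h1 : ((y.val : ℕ) : ZMod (p ^ l)) = c := by
        rw [← hy]
        conv_rhs => rw [← ZMod.natCast_zmod_val y]
        rw [map_natCast]
      rw [← h1, ZMod.val_natCast]
    have h1 := key z (Finset.mem_filter.1 (Finset.mem_coe.1 hz)).2
    have h2 := key w (Finset.mem_filter.1 (Finset.mem_coe.1 hw)).2
    have h3 : z.val / p ^ l = w.val / p ^ l := hzw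
    apply ZMod.val_injective (p ^ k)
    rw [← Nat.div_add_mod z.val (p ^ l), ← Nat.div_add_mod w.val (p ^ l), h1, h2, h3]

theorem linnik_exp (k : ℕ) : ∑ j : Fin k, (k - ((j : ℕ) + 1)) = k * (k - 1) / 2 := by
  rw [Fin.sum_univ_eq_sum_range (fun j => k - (j + 1)) k, ← Finset.sum_range_id,
    ← Finset.sum_range_reflect (fun j => j) k]
  refine Finset.sum_congr rfl (fun j _ => ?_)
  omega

theorem linnik (p k N : ℕ) (hp : p.Prime) (hk1 : 1 ≤ k) (hk : k < p) (hN : N ≤ p ^ k) (b : ℤ)
    (h : Fin k → ℤ) :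
    ((Fintype.piFinset fun _ : Fin k => Icc (b + 1) (b + (N : ℤ))).filter fun x =>
      DMod p x ∧ ∀ j : Fin k, ∑ i, x i ^ ((j : ℕ) + 1) ≡ h j [ZMOD ((p : ℤ) ^ ((j : ℕ) + 1))]).card ≤
      k.factorial * p ^ (k * (k - 1) / 2) := by
  have : NeZero (p ^ k) := ⟨pow_ne_zero _ hp.ne_zero⟩
  have hle : ∀ j : Fin k, (j : ℕ) + 1 ≤ k := fun j => j.2
  have h1 := Finset.card_le_mul_card_image_of_maps_to
    (s := (Fintype.piFinset fun _ : Fin k => Icc (b + 1) (b + (N : ℤ))).filter fun x =>
      DMod p x ∧ ∀ j : Fin k, ∑ i, x i ^ ((j : ℕ) + 1) ≡ h j [ZMOD ((p : ℤ) ^ ((j : ℕ) + 1))])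
    (t := Fintype.piFinset fun j : Fin k => (univ : Finset (ZMod (p ^ k))).filter fun z =>
      (ZMod.castHom (pow_dvd_pow p (hle j)) (ZMod (p ^ ((j : ℕ) + 1)))) z =
        ((h j : ℤ) : ZMod (p ^ ((j : ℕ) + 1))))
    (f := fun x (j : Fin k) => ∑ i, ((x i : ℤ) : ZMod (p ^ k)) ^ ((j : ℕ) + 1)) (by
      intro x hx
      have hx' := (linnik_mf hx).2
      rw [Fintype.mem_piFinset]
      intro j
      refine Finset.mem_filter.2 ⟨Finset.mem_univ _, ?_⟩
      rw [map_sum]
      have h2 := (ZMod.intCast_eq_intCast_iff (∑ i, x i ^ ((j : ℕ) + 1)) (h j)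
        (p ^ ((j : ℕ) + 1))).2 (by
          push_cast
          exact hx' j)
      rw [← h2]
      push_cast
      refine Finset.sum_congr rfl (fun i _ => ?_)
      rw [map_pow, map_intCast])
    (k.factorial) (by
      intro g _
      refine le_trans ?_ (newt p k k hp hk hk1 g)
      refine Finset.card_le_card_of_injOn (fun x i => ((x i : ℤ) : ZMod (p ^ k))) ?_ ?_
      · intro x hx
        have hx1 := linnik_mf (Finset.mem_coe.1 hx)
        have hx2 := (linnik_mf (Finset.mem_filter.1 (Finset.mem_coe.1 hx)).1).1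
        refine Finset.mem_coe.2 (linnik_fm (Finset.mem_univ _) ⟨?_, ?_⟩)
        · intro i j hij
          rw [newt_isUnit p k hp hk1]
          intro h3
          rw [map_sub, map_intCast, map_intCast, sub_eq_zero,
            ZMod.intCast_eq_intCast_iff] at h3
          exact hij (hx2 i j h3)
        · intro j
          exact congrFun hx1 j
      · intro x hx y hy hxy
        have hx1 := (Finset.mem_filter.1 (Finset.mem_filter.1 (Finset.mem_coe.1 hx)).1).1
        have hy1 := (Finset.mem_filter.1 (Finset.mem_filter.1 (Finset.mem_coe.1 hy)).1).1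
        rw [Fintype.mem_piFinset] at hx1 hy1
        funext i
        have h3 : ((x i : ℤ) : ZMod (p ^ k)) = ((y i : ℤ) : ZMod (p ^ k)) := congrFun hxy i
        rw [ZMod.intCast_eq_intCast_iff] at h3
        have h4 := Finset.mem_Icc.1 (hx1 i)
        have h5 := Finset.mem_Icc.1 (hy1 i)
        have h6 := Int.modEq_iff_dvd.1 h3
        have h7 : (N : ℤ) ≤ ((p ^ k : ℕ) : ℤ) := by exact_mod_cast hN
        have h8 : y i - x i = 0 := by
          apply Int.eq_zero_of_abs_lt_dvd h6
          rw [abs_lt]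
          constructor <;> linarith [h4.1, h4.2, h5.1, h5.2]
        linarith)
  refine h1.trans (Nat.mul_le_mul_left _ ?_)
  rw [Fintype.card_piFinset]
  calc _ ≤ ∏ j : Fin k, p ^ (k - ((j : ℕ) + 1)) :=
        Finset.prod_le_prod' (fun j _ => linnik_res p k ((j : ℕ) + 1) hp (hle j) _)
    _ = p ^ (k * (k - 1) / 2) := by
        rw [Finset.prod_pow_eq_pow_sum, linnik_exp]

end Pool.Agent.H43.VM
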