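import Pool.Agent.H43.VM.Defs

/-!
# [H43 VM NEWT] Tuples modulo `p^m` with prescribed power sums

`p` prime, `k < p`, `m >= 1`. The tuples `x : Fin k → ZMod (p^m)` with pairwise differences that are
units and with prescribed power sums of the exponents `1..k` number at most `k!`.

PROOF. (1) Newton's identities (`MvPolynomial.mul_esymm_eq_sum`, evaluated with
`MvPolynomial.aeval x`): for `1 <= j <= k`, `j * e_j(x)` is a polynomial in `e_i(x)` (`i < j`) and in
the power sums; since `j` is a unit in `ZMod (p^m)` (`j < p`: `ZMod.unitOfCoprime` or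
`ZMod.isUnit_iff_coprime`), induction on `j` shows that the elementary symmetric functions `e_j(x)`
(`j <= k`) are the same for all `x` of the set. Hence the polynomials `∏_l (X - C (x l))` are the
same (`Multiset.prod_X_sub_C_eq_sum_esymm` / `MvPolynomial.prod_C_add_X_eq_sum_esymm` /
`Finset.prod_X_add_C..`).
(2) Let `x, x'` be in the set. For each `i`: `∏_l (x' i - x l) = 0` (evaluate at `x' i`, where the
polynomial of `x'` vanishes). For `l ≠ l'` the difference `(x' i - x l') - (x' i - x l) = x l - x l'`
is a unit; in `ZMod (p^m)` an element is a unit iff it is not divisible by `p`, so the non-units are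
closed under subtraction and at most one of the factors `x' i - x l` is a non-unit. As the product
is `0`, exactly one, say `l = σ i`, is a non-unit, the others are units, so `x' i = x (σ i)`.
`σ` is injective because `x'` is (differences are units, and `0` is not a unit as `m >= 1`), so `x' = x ∘ σ`,
`σ : Equiv.Perm (Fin k)`. Therefore, if the set is not empty, it is contained in the image of
`σ ↦ x ∘ σ`, whose cardinality is at most `k!` (`Fintype.card_perm`).
-/

namespace Pool.Agent.H43.VM

open Finset in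
theorem newt_isUnit (p m : ℕ) (hp : p.Prime) (hm : 1 ≤ m) [NeZero (p ^ m)] (a : ZMod (p ^ m)) :
    IsUnit a ↔ (ZMod.castHom (dvd_pow_self p (by omega : m ≠ 0)) (ZMod p)) a ≠ 0 := by
  have h1 : ((a.val : ℕ) : ZMod (p ^ m)) = a := ZMod.natCast_zmod_val a
  have h2 : (ZMod.castHom (dvd_pow_self p (by omega : m ≠ 0)) (ZMod p)) a =
      ((a.val : ℕ) : ZMod p) := by
    conv_lhs => rw [← h1]
    rw [map_natCast]
  rw [h2, Ne, ZMod.natCast_eq_zero_iff]
  conv_lhs => rw [← h1]
  rw [ZMod.isUnit_iff_coprime]
  constructor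
  · intro h hd
    have h3 : p ∣ Nat.gcd a.val (p ^ m) := Nat.dvd_gcd hd (dvd_pow_self p (by omega))
    rw [Nat.Coprime] at h
    rw [h] at h3
    exact hp.one_lt.ne' (Nat.dvd_one.1 h3)
  · intro h
    exact (((Nat.Prime.coprime_iff_not_dvd hp).2 h).symm).pow_right m

open Finset in
theorem newt_esymm (R : Type) [CommRing R] (k : ℕ) (hu : ∀ j : ℕ, 1 ≤ j → j ≤ k → IsUnit (j : R))
    (x y : Fin k → R) (h : ∀ j : ℕ, 1 ≤ j → j ≤ k → ∑ i, x i ^ j = ∑ i, y i ^ j) :
    ∀ j : ℕ, j ≤ k → (univ.val.map x).esymm j = (univ.val.map y).esymm j := by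
  intro j
  induction j using Nat.strong_induction_on with
  | _ j ih =>
    intro hj
    rcases Nat.eq_zero_or_pos j with h0 | h0
    · subst h0
      simp [Multiset.esymm]
    · have key : ∀ z : Fin k → R, (j : R) * (univ.val.map z).esymm j = (-1) ^ (j + 1) *
          ∑ a ∈ antidiagonal j with a.1 < j, (-1) ^ a.1 * (univ.val.map z).esymm a.1 *
            ∑ i, z i ^ a.2 := by
        intro z
        have h1 := congrArg (MvPolynomial.aeval z) (MvPolynomial.mul_esymm_eq_sum (Fin k) R j)
        rw [map_mul, map_natCast, MvPolynomial.aeval_esymm_eq_multiset_esymm, map_mul, map_pow,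
          map_neg, map_one, map_sum] at h1
        rw [h1]
        congr 1
        refine Finset.sum_congr rfl (fun a _ => ?_)
        rw [map_mul, map_mul, map_pow, map_neg, map_one,
          MvPolynomial.aeval_esymm_eq_multiset_esymm]
        congr 1
        rw [MvPolynomial.psum, map_sum]
        refine Finset.sum_congr rfl (fun i _ => ?_)
        rw [map_pow, MvPolynomial.aeval_X]
      apply (hu j h0 hj).mul_left_cancel
      rw [key x, key y]
      congr 1
      refine Finset.sum_congr rfl (fun a ha => ?_)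
      rw [Finset.mem_filter, Finset.HasAntidiagonal.mem_antidiagonal] at ha
      rw [ih a.1 ha.2 (by omega), h a.2 (by omega) (by omega)]

open Finset Polynomial in
theorem newt_poly (R : Type) [CommRing R] (k : ℕ) (x y : Fin k → R)
    (h : ∀ j : ℕ, j ≤ k → (univ.val.map x).esymm j = (univ.val.map y).esymm j) :
    ∏ l, (X - C (x l)) = ∏ l, (X - C (y l)) := by
  have key : ∀ z : Fin k → R, ∏ l, (X - C (z l)) = ((univ.val.map z).map fun t => X - C t).prod := by
    intro z
    rw [Multiset.map_map]
    rfl
  rw [key, key, Multiset.prod_X_sub_X_eq_sum_esymm, Multiset.prod_X_sub_X_eq_sum_esymm]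
  have hc : ∀ z : Fin k → R, Multiset.card (univ.val.map z) = k := by
    intro z
    rw [Multiset.card_map]
    exact Finset.card_fin k
  rw [hc, hc]
  refine Finset.sum_congr rfl (fun j hj => ?_)
  rw [h j (by have := Finset.mem_range.1 hj; omega)]

open Finset Polynomial in
theorem newt_perm (p k m : ℕ) (hp : p.Prime) (hm : 1 ≤ m) [NeZero (p ^ m)]
    (x y : Fin k → ZMod (p ^ m)) (hx : ∀ i j, i ≠ j → IsUnit (x i - x j))
    (hy : ∀ i j, i ≠ j → IsUnit (y i - y j))
    (h : ∏ l, (X - C (x l)) = ∏ l, (X - C (y l))) :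
    ∃ σ : Equiv.Perm (Fin k), y = x ∘ σ := by
  have : Fact p.Prime := ⟨hp⟩
  have : Fact (1 < p ^ m) := ⟨Nat.one_lt_pow (by omega) hp.one_lt⟩
  have key : ∀ i, ∃ l, y i = x l := by
    intro i
    have h1 : ∏ l, (y i - x l) = 0 := by
      have h2 := congrArg (Polynomial.eval (y i)) h
      rw [Polynomial.eval_prod, Polynomial.eval_prod] at h2
      simp only [eval_sub, eval_X, eval_C] at h2
      rw [h2]
      exact Finset.prod_eq_zero (Finset.mem_univ i) (sub_self _)
    set f := ZMod.castHom (dvd_pow_self p (by omega : m ≠ 0)) (ZMod p) with hf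
    have h2 : ∏ l, f (y i - x l) = 0 := by
      rw [← map_prod, h1, map_zero]
    obtain ⟨l, -, hl⟩ := Finset.prod_eq_zero_iff.1 h2
    refine ⟨l, ?_⟩
    have h3 : IsUnit (∏ l' ∈ univ.erase l, (y i - x l')) := by
      rw [IsUnit.prod_iff]
      intro l' hl'
      rw [newt_isUnit p m hp hm]
      have h4 : y i - x l' = (y i - x l) + (x l - x l') := by ring
      rw [h4, map_add]
      change f (y i - x l) + f (x l - x l') ≠ 0
      rw [hl, zero_add]
      exact (newt_isUnit p m hp hm _).1 (hx l l' (Finset.ne_of_mem_erase hl').symm)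
    have h5 : (y i - x l) * ∏ l' ∈ univ.erase l, (y i - x l') = 0 := by
      rw [Finset.mul_prod_erase univ (fun l' => y i - x l') (Finset.mem_univ l)]
      exact h1
    have h6 : y i - x l = 0 := by
      have := h3.mul_left_eq_zero.1 h5
      exact this
    exact sub_eq_zero.1 h6
  choose σ hσ using key
  have hinj : Function.Injective σ := by
    intro i j hij
    by_contra hne
    have h1 := hy i j hne
    rw [hσ i, hσ j, hij, sub_self] at h1
    exact not_isUnit_zero h1
  refine ⟨Equiv.ofBijective σ (Finite.injective_iff_bijective.1 hinj), ?_⟩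
  funext i
  exact hσ i

open Finset Classical in
theorem newt (p k m : ℕ) (hp : p.Prime) (hk : k < p) (hm : 1 ≤ m) [NeZero (p ^ m)]
    (g : Fin k → ZMod (p ^ m)) :
    ((univ : Finset (Fin k → ZMod (p ^ m))).filter fun x =>
      (∀ i j, i ≠ j → IsUnit (x i - x j)) ∧ ∀ j : Fin k, ∑ i, x i ^ ((j : ℕ) + 1) = g j).card ≤
      k.factorial := by
  rcases Finset.eq_empty_or_nonempty ((univ : Finset (Fin k → ZMod (p ^ m))).filter fun x =>
      (∀ i j, i ≠ j → IsUnit (x i - x j)) ∧ ∀ j : Fin k, ∑ i, x i ^ ((j : ℕ) + 1) = g j)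
    with he | ⟨x, hx⟩
  · rw [he, Finset.card_empty]
    exact Nat.zero_le _
  · have hx' := (Finset.mem_filter.1 hx).2
    have hsub : ((univ : Finset (Fin k → ZMod (p ^ m))).filter fun x =>
        (∀ i j, i ≠ j → IsUnit (x i - x j)) ∧ ∀ j : Fin k, ∑ i, x i ^ ((j : ℕ) + 1) = g j) ⊆
        Finset.image (fun σ : Equiv.Perm (Fin k) => x ∘ (σ : Fin k → Fin k))
          (univ : Finset (Equiv.Perm (Fin k))) := by
      intro y hy
      have hy' := (Finset.mem_filter.1 hy).2
      have hp1 : ∀ j : ℕ, 1 ≤ j → j ≤ k → ∑ i, x i ^ j = ∑ i, y i ^ j := by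
        intro j h1 h2
        have e1 := hx'.2 ⟨j - 1, by omega⟩
        have e2 := hy'.2 ⟨j - 1, by omega⟩
        simp only [Nat.sub_add_cancel h1] at e1 e2
        rw [e1, e2]
      have hu : ∀ j : ℕ, 1 ≤ j → j ≤ k → IsUnit (j : ZMod (p ^ m)) := by
        intro j h1 h2
        rw [ZMod.isUnit_iff_coprime]
        have : ¬ p ∣ j := fun hd => by
          have := Nat.le_of_dvd (by omega) hd
          omega
        exact (((Nat.Prime.coprime_iff_not_dvd hp).2 this).symm).pow_right m
      have hq := newt_poly _ k x y (newt_esymm _ k hu x y hp1)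
      obtain ⟨σ, hσ⟩ := newt_perm p k m hp hm x y hx'.1 hy'.1 hq
      rw [Finset.mem_image]
      exact ⟨σ, Finset.mem_univ _, hσ.symm⟩
    refine (Finset.card_le_card hsub).trans (Finset.card_image_le.trans ?_)
    rw [Finset.card_univ, Fintype.card_perm, Fintype.card_fin]

end Pool.Agent.H43.VM
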