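import Pool.Agent.H43.VM.Defs

/-!
# [H43 VM PRSEL] Selection of a prime

`k >= 2`, `P` a finite set of at least `k^3` primes with `N <= p^k`: `Q k t N <= Σ_{p∈P} V k t N p`.

PROOF. If `N <= 1` then `box k N` has no injective tuple (`k >= 2`), `Q = 0`. Let `N >= 2`, and let
`x, y ∈ box k N` be injective. `D = ∏_{i<j} (x_j - x_i) * ∏_{i<j} (y_j - y_i)` (product over the pairs
`i < j` of `Fin k`, `k(k-1)/2` factors each) is a nonzero integer with `|D| < N^(k(k-1))`
(each factor has absolute value `< N`, at least one factor since `k >= 2`). If every `p ∈ P` divided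
`D` then `∏_{p∈P} p ∣ D` (`Finset.prod_primes_dvd`), so `(∏ p)^k <= |D|^k < N^(k^2(k-1))`, but
`(∏ p)^k = ∏ p^k >= N^(card P) >= N^(k^3)`: contradiction. So some `p ∈ P` does not divide `D`, which
means that `x` and `y` are injective mod `p` (`DMod p x`, `DMod p y`). Hence the set counted by
`Q` is contained in the union over `p ∈ P` of the sets counted by `V k t N p`
(`Finset.card_biUnion_le`).
-/

namespace Pool.Agent.H43.VM

open Finset

/-- fewer than `k` of the primes divide a nonzero integer smaller than `N` -/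
private theorem prsel_few {k N : ℕ} (hk : 1 ≤ k) (P : Finset ℕ) (hpr : ∀ p ∈ P, p.Prime)
    (hpN : ∀ p ∈ P, N ≤ p ^ k) (m : ℤ) (hm0 : m ≠ 0) (hmN : m.natAbs < N) :
    (P.filter (fun p : ℕ => (p : ℤ) ∣ m)).card ≤ k - 1 := by
  by_contra hcon
  obtain ⟨S, hS, hSc⟩ := exists_subset_card_eq (show k ≤ (P.filter (fun p : ℕ => (p : ℤ) ∣ m)).card by
    omega)
  have hSP : ∀ p ∈ S, p ∈ P ∧ (p : ℤ) ∣ m := fun p hp => mem_filter.1 (hS hp)
  have h1 : ∏ p ∈ S, p ∣ m.natAbs := by
    apply Finset.prod_primes_dvd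
    · intro p hp
      exact (hpr p (hSP p hp).1).prime
    · intro p hp
      exact Int.natCast_dvd.1 (hSP p hp).2
  have h2 : ∏ p ∈ S, p ≤ m.natAbs := Nat.le_of_dvd (Int.natAbs_pos.2 hm0) h1
  have h3 : N ^ k ≤ (∏ p ∈ S, p) ^ k := by
    rw [← prod_pow]
    calc N ^ k = ∏ _p ∈ S, N := by rw [prod_const, hSc]
      _ ≤ ∏ p ∈ S, p ^ k := prod_le_prod' (fun p hp => hpN p (hSP p hp).1)
  have h4 : N ≤ ∏ p ∈ S, p := (Nat.pow_le_pow_iff_left (by omega)).1 h3
  omega

private theorem prsel_pairs (k : ℕ) :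
    2 * (univ.filter (fun q : Fin k × Fin k => q.1 < q.2)).card ≤ k * k := by
  have h1 : (univ.filter (fun q : Fin k × Fin k => q.2 < q.1)).card =
      (univ.filter (fun q : Fin k × Fin k => q.1 < q.2)).card := by
    apply card_nbij' Prod.swap Prod.swap
    · intro q hq
      simp only [coe_filter, mem_univ, true_and, Set.mem_ofPred_eq] at hq ⊢
      exact hq
    · intro q hq
      simp only [coe_filter, mem_univ, true_and, Set.mem_ofPred_eq] at hq ⊢
      exact hq
    · intro q _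
      exact Prod.swap_swap q
    · intro q _
      exact Prod.swap_swap q
  have h2 : Disjoint (univ.filter (fun q : Fin k × Fin k => q.1 < q.2))
      (univ.filter (fun q : Fin k × Fin k => q.2 < q.1)) := by
    rw [disjoint_filter]
    intro q _ h3 h4
    exact lt_asymm h3 h4
  have h3 := card_le_card (subset_univ ((univ.filter (fun q : Fin k × Fin k => q.1 < q.2)) ∪
    (univ.filter (fun q : Fin k × Fin k => q.2 < q.1))))
  rw [card_union_of_disjoint h2, h1, card_univ, Fintype.card_prod, Fintype.card_fin] at h3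
  omega

private theorem prsel_bad {k N : ℕ} (hk : 1 ≤ k) (P : Finset ℕ) (hpr : ∀ p ∈ P, p.Prime)
    (hpN : ∀ p ∈ P, N ≤ p ^ k) (x : Fin k → ℤ) (hx : x ∈ box k N) (hinj : Function.Injective x) :
    2 * (P.filter (fun p => ¬ DMod p x)).card ≤ k * k * (k - 1) := by
  have hxi : ∀ i, 1 ≤ x i ∧ x i ≤ N := by
    intro i
    have := Fintype.mem_piFinset.1 hx i
    rwa [mem_Icc] at this
  have hsub : P.filter (fun p => ¬ DMod p x) ⊆
      (univ.filter (fun q : Fin k × Fin k => q.1 < q.2)).biUnion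
        (fun q => P.filter (fun p : ℕ => (p : ℤ) ∣ x q.2 - x q.1)) := by
    intro p hp
    rw [mem_filter] at hp
    obtain ⟨hpP, hp⟩ := hp
    unfold DMod at hp
    push Not at hp
    obtain ⟨i, j, hij, hne⟩ := hp
    rw [mem_biUnion]
    rcases lt_or_gt_of_ne hne with h | h
    · refine ⟨(i, j), mem_filter.2 ⟨mem_univ _, h⟩, mem_filter.2 ⟨hpP, ?_⟩⟩
      exact hij.dvd
    · refine ⟨(j, i), mem_filter.2 ⟨mem_univ _, h⟩, mem_filter.2 ⟨hpP, ?_⟩⟩
      exact hij.symm.dvd
  have h1 : (P.filter (fun p => ¬ DMod p x)).card ≤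
      (univ.filter (fun q : Fin k × Fin k => q.1 < q.2)).card * (k - 1) := by
    refine (card_le_card hsub).trans (card_biUnion_le_card_mul _ _ _ ?_)
    intro q hq
    rw [mem_filter] at hq
    apply prsel_few hk P hpr hpN
    · intro h0
      have h2 : x q.2 = x q.1 := by linarith
      exact (ne_of_lt hq.2) (hinj h2).symm
    · have h2 := hxi q.1
      have h3 := hxi q.2
      omega
  calc 2 * (P.filter (fun p => ¬ DMod p x)).card
      ≤ 2 * ((univ.filter (fun q : Fin k × Fin k => q.1 < q.2)).card * (k - 1)) :=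
        Nat.mul_le_mul_left _ h1
    _ = (2 * (univ.filter (fun q : Fin k × Fin k => q.1 < q.2)).card) * (k - 1) := by ring
    _ ≤ k * k * (k - 1) := Nat.mul_le_mul_right _ (prsel_pairs k)

theorem prsel (k t N : ℕ) (hk : 2 ≤ k) (P : Finset ℕ) (hP : k ^ 3 ≤ P.card)
    (hpr : ∀ p ∈ P, p.Prime) (hpN : ∀ p ∈ P, N ≤ p ^ k) :
    Q k t N ≤ ∑ p ∈ P, V k t N p := by
  unfold Q V
  refine le_trans (card_le_card ?_) card_biUnion_le
  intro q hq
  rw [mem_filter] at hq
  obtain ⟨hqb, hq1, hq2, hps⟩ := hq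
  have hqb' := hqb
  rw [mem_product, mem_product, mem_product] at hqb'
  have h1 := prsel_bad (by omega) P hpr hpN q.1.1 hqb'.1.1 hq1
  have h2 := prsel_bad (by omega) P hpr hpN q.2.1 hqb'.2.1 hq2
  obtain ⟨p, hpP, hp⟩ : ∃ p ∈ P, p ∉ P.filter (fun p => ¬ DMod p q.1.1) ∪
      P.filter (fun p => ¬ DMod p q.2.1) := by
    by_contra hcon
    push Not at hcon
    have h3 : P.card ≤ (P.filter (fun p => ¬ DMod p q.1.1) ∪
      P.filter (fun p => ¬ DMod p q.2.1)).card := card_le_card hcon
    have h4 := card_union_le (P.filter (fun p => ¬ DMod p q.1.1))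
      (P.filter (fun p => ¬ DMod p q.2.1))
    have h5 : k * k * (k - 1) < k ^ 3 := by
      have e : k ^ 3 = k * k * k := by ring
      rw [e]
      apply Nat.mul_lt_mul_of_pos_left (by omega)
      positivity
    omega
  rw [mem_union, not_or, mem_filter, mem_filter, not_and, not_and, not_not, not_not] at hp
  rw [mem_biUnion]
  exact ⟨p, hpP, mem_filter.2 ⟨hqb, hp.1 hpP, hp.2 hpP, hps⟩⟩

end Pool.Agent.H43.VM
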