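import Mathlib

/-!
# [H43 VM PRIMES] `k^3` primes slightly above `N^(1/k)`

PROOF. Let `n0` be the least natural number with `N <= n0^k` (`Nat.find`, or `⌈N^(1/k)⌉₊`). As
`N >= k^k`, `n0 >= k`, and `n0 <= N^(1/k) + 1 <= 2 N^(1/k)` (`N >= 1`). Bertrand's postulate
(`Nat.exists_prime_lt_and_le_two_mul`) gives for every `i < k^3` a prime `p_i` with
`2^i n0 < p_i <= 2^(i+1) n0`; they are strictly increasing, so different; `p_i > n0 >= k`,
`p_i^k >= n0^k >= N`, `p_i <= 2^(k^3) n0 <= 2^(k^3+1) N^(1/k)`.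
-/

namespace Pool.Agent.H43.VM

open Finset

theorem primes (k N : ℕ) (hk : 2 ≤ k) (hN : k ^ k ≤ N) :
    ∃ P : Finset ℕ, P.card = k ^ 3 ∧ ∀ p ∈ P, p.Prime ∧ k < p ∧ N ≤ p ^ k ∧
      (p : ℝ) ≤ 2 ^ (k ^ 3 + 1) * (N : ℝ) ^ (1 / (k : ℝ)) := by
  have hk0 : (0:ℝ) < k := by exact_mod_cast (by omega : 0 < k)
  set x : ℝ := (N : ℝ) ^ (1 / (k : ℝ)) with hx
  have hxk : x ^ k = N := by
    rw [hx, ← Real.rpow_natCast, ← Real.rpow_mul (Nat.cast_nonneg N)]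
    rw [one_div, inv_mul_cancel₀ hk0.ne', Real.rpow_one]
  have hx0 : 0 ≤ x := Real.rpow_nonneg (Nat.cast_nonneg N) _
  have hkx : (k : ℝ) ≤ x := by
    by_contra h
    push Not at h
    have h1 : x ^ k < (k : ℝ) ^ k := pow_lt_pow_left₀ h hx0 (by omega)
    rw [hxk] at h1
    have h2 : ((k ^ k : ℕ) : ℝ) ≤ N := by exact_mod_cast hN
    push_cast at h2
    linarith
  have hx1 : 1 ≤ x := by
    have : (2:ℝ) ≤ k := by exact_mod_cast hk
    linarith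
  set n0 : ℕ := ⌈x⌉₊ with hn0
  have hxn : x ≤ n0 := Nat.le_ceil x
  have hnx : (n0 : ℝ) ≤ 2 * x := by
    have := Nat.ceil_lt_add_one hx0
    linarith
  have hkn : k ≤ n0 := by
    have : (k : ℝ) ≤ n0 := hkx.trans hxn
    exact_mod_cast this
  have hNn : N ≤ n0 ^ k := by
    have h1 : x ^ k ≤ (n0 : ℝ) ^ k := pow_le_pow_left₀ hx0 hxn k
    rw [hxk] at h1
    exact_mod_cast h1
  have hn00 : n0 ≠ 0 := by omega
  have hex : ∀ i : ℕ, ∃ p : ℕ, p.Prime ∧ 2 ^ i * n0 < p ∧ p ≤ 2 * (2 ^ i * n0) := fun i =>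
    Nat.exists_prime_lt_and_le_two_mul _ (by positivity)
  choose f hf1 hf2 hf3 using hex
  have hmono : StrictMono f := by
    refine strictMono_nat_of_lt_succ fun i => ?_
    calc f i ≤ 2 * (2 ^ i * n0) := hf3 i
      _ = 2 ^ (i + 1) * n0 := by ring
      _ < f (i + 1) := hf2 (i + 1)
  refine ⟨(range (k ^ 3)).image f, ?_, ?_⟩
  · rw [card_image_of_injective _ hmono.injective, card_range]
  · intro p hp
    rw [mem_image] at hp
    obtain ⟨i, hi, rfl⟩ := hp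
    rw [mem_range] at hi
    have h1 : n0 < f i := lt_of_le_of_lt (Nat.le_mul_of_pos_left _ (by positivity)) (hf2 i)
    refine ⟨hf1 i, lt_of_le_of_lt hkn h1, hNn.trans (Nat.pow_le_pow_left h1.le k), ?_⟩
    have h2 : f i ≤ 2 ^ (k ^ 3) * n0 := by
      calc f i ≤ 2 * (2 ^ i * n0) := hf3 i
        _ = 2 ^ (i + 1) * n0 := by ring
        _ ≤ 2 ^ (k ^ 3) * n0 := by
          apply Nat.mul_le_mul_right
          exact Nat.pow_le_pow_right (by norm_num) hi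
    calc (f i : ℝ) ≤ ((2 ^ (k ^ 3) * n0 : ℕ) : ℝ) := by exact_mod_cast h2
      _ = 2 ^ (k ^ 3) * (n0 : ℝ) := by push_cast; ring
      _ ≤ 2 ^ (k ^ 3) * (2 * x) := by gcongr
      _ = 2 ^ (k ^ 3 + 1) * x := by ring

end Pool.Agent.H43.VM
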