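import Pool.Agent.H43.VM.SplitV
import Pool.Agent.H43.VM.Good
import Pool.Agent.H43.VM.PrSel
import Pool.Agent.H43.VM.Primes

/-!
# [H43 VM RECU] The recursive inequality

PROOF. `P` from `primes`. `good` and `prsel`:
`J k (t+k) N <= 2 (k^(t+k) N^(k-1))^2 + 2 (t+k)^(2k) Σ_{p∈P} V k t N p`. By `v_le`
(`N <= p^k`, `k < p`): `V k t N p <= p^(2t) N^k k! p^(k(k-1)/2) J k t (N/p+1)`. Put
`B = 2^(k^3+1) N^(1/k)`, so `p <= B` and `p^(2t) p^(k(k-1)/2) <= B^(2t+k(k-1)/2)`. Since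
`N <= p^k`, `p >= N^(1/k)`, `N/p <= N^(1-1/k)`, so `(N/p+1 : ℕ) <= N^(1-1/k) + 1 <= 2 N^(1-1/k)`
(`Nat.cast_div_le`), and by the hypothesis `J k t (N/p+1) <= D (2 N^(1-1/k))^lam` (`lam >= 0`,
`Real.rpow_le_rpow`). Sum over `k^3` primes. All casts to `ℝ`.
-/

namespace Pool.Agent.H43.VM

open Finset

theorem recu_root (k N p : ℕ) (hk : 2 ≤ k) (h : N ≤ p ^ k) :
    (N : ℝ) ^ (1 / (k : ℝ)) ≤ p := by
  have hk0 : (0 : ℝ) < k := by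
    have : 0 < k := by omega
    exact_mod_cast this
  have h1 : (N : ℝ) ≤ (p : ℝ) ^ k := by exact_mod_cast h
  have h2 : (N : ℝ) ^ (1 / (k : ℝ)) ≤ ((p : ℝ) ^ k) ^ (1 / (k : ℝ)) :=
    Real.rpow_le_rpow (Nat.cast_nonneg _) h1 (by positivity)
  refine h2.trans (le_of_eq ?_)
  rw [← Real.rpow_natCast, ← Real.rpow_mul (Nat.cast_nonneg _), mul_one_div_cancel hk0.ne',
    Real.rpow_one]

theorem recu_div (k N p : ℕ) (hk : 2 ≤ k) (hN1 : 1 ≤ N) (h : N ≤ p ^ k) :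
    ((N / p + 1 : ℕ) : ℝ) ≤ 2 * (N : ℝ) ^ (1 - 1 / (k : ℝ)) := by
  have hk0 : (0 : ℝ) < k := by
    have : 0 < k := by omega
    exact_mod_cast this
  have hN0 : (1 : ℝ) ≤ N := by exact_mod_cast hN1
  have hNpos : (0 : ℝ) < N := by linarith
  have h1 := recu_root k N p hk h
  have h2 : (0 : ℝ) < (N : ℝ) ^ (1 / (k : ℝ)) := Real.rpow_pos_of_pos hNpos _
  have hp0 : (0 : ℝ) < p := lt_of_lt_of_le h2 h1
  have h3 : ((N / p : ℕ) : ℝ) ≤ (N : ℝ) ^ (1 - 1 / (k : ℝ)) := by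
    refine (Nat.cast_div_le).trans ?_
    rw [Real.rpow_sub hNpos, Real.rpow_one]
    exact div_le_div_of_nonneg_left hNpos.le h2 h1
  have h4 : (1 : ℝ) ≤ (N : ℝ) ^ (1 - 1 / (k : ℝ)) := by
    apply Real.one_le_rpow hN0
    have : 1 / (k : ℝ) ≤ 1 := by
      rw [div_le_one hk0]
      have : 1 ≤ k := by omega
      exact_mod_cast this
    linarith
  push_cast
  linarith

theorem recu (k t N : ℕ) (hk : 2 ≤ k) (ht : 1 ≤ t) (hN : k ^ k ≤ N) (D lam : ℝ) (hD : 0 ≤ D)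
    (hlam : 0 ≤ lam) (hJ : ∀ M : ℕ, 1 ≤ M → (J k t M : ℝ) ≤ D * (M : ℝ) ^ lam) :
    (J k (t + k) N : ℝ) ≤ 2 * ((k : ℝ) ^ (t + k) * (N : ℝ) ^ (k - 1)) ^ 2 +
      2 * ((t + k : ℕ) : ℝ) ^ (2 * k) * ((k : ℝ) ^ 3 *
        ((2 ^ (k ^ 3 + 1) * (N : ℝ) ^ (1 / (k : ℝ))) ^ (2 * t + k * (k - 1) / 2) *
          ((N : ℝ) ^ k * (k.factorial : ℝ) * (D * (2 * (N : ℝ) ^ (1 - 1 / (k : ℝ))) ^ lam)))) := by
  have hN1 : 1 ≤ N := le_trans (Nat.one_le_pow _ _ (by omega)) hN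
  obtain ⟨P, hPc, hP⟩ := primes k N hk hN
  have h1 := good k t N (by omega) hN1
  have h2 := prsel k t N hk P hPc.ge (fun p hp => (hP p hp).1) (fun p hp => (hP p hp).2.2.1)
  have hNpos : (0 : ℝ) < N := by exact_mod_cast hN1
  have hV : ∀ p ∈ P, (V k t N p : ℝ) ≤
      (2 ^ (k ^ 3 + 1) * (N : ℝ) ^ (1 / (k : ℝ))) ^ (2 * t + k * (k - 1) / 2) *
          ((N : ℝ) ^ k * (k.factorial : ℝ) *
            (D * (2 * (N : ℝ) ^ (1 - 1 / (k : ℝ))) ^ lam)) := by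
    intro p hp
    obtain ⟨p1, p2, p3, p4⟩ := hP p hp
    have h3 := v_le k t N p p1 (by omega) p2 p3 ht
    have h4 : (V k t N p : ℝ) ≤ (p : ℝ) ^ (2 * t) * ((N : ℝ) ^ k *
        ((k.factorial : ℝ) * (p : ℝ) ^ (k * (k - 1) / 2)) * (J k t (N / p + 1) : ℝ)) := by
      exact_mod_cast h3
    have h5 : (J k t (N / p + 1) : ℝ) ≤ D * (2 * (N : ℝ) ^ (1 - 1 / (k : ℝ))) ^ lam := by
      refine (hJ (N / p + 1) (Nat.le_add_left 1 _)).trans ?_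
      exact mul_le_mul_of_nonneg_left
        (Real.rpow_le_rpow (Nat.cast_nonneg _) (recu_div k N p hk hN1 p3) hlam) hD
    have h6 : (p : ℝ) ^ (2 * t) * (p : ℝ) ^ (k * (k - 1) / 2) ≤
        (2 ^ (k ^ 3 + 1) * (N : ℝ) ^ (1 / (k : ℝ))) ^ (2 * t + k * (k - 1) / 2) := by
      rw [← pow_add]
      exact pow_le_pow_left₀ (Nat.cast_nonneg _) p4 _
    have h7 : (0 : ℝ) ≤ (N : ℝ) ^ k * (k.factorial : ℝ) := by positivity
    calc (V k t N p : ℝ) ≤ (p : ℝ) ^ (2 * t) * ((N : ℝ) ^ k *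
        ((k.factorial : ℝ) * (p : ℝ) ^ (k * (k - 1) / 2)) * (J k t (N / p + 1) : ℝ)) := h4
      _ = ((p : ℝ) ^ (2 * t) * (p : ℝ) ^ (k * (k - 1) / 2)) *
          ((N : ℝ) ^ k * (k.factorial : ℝ) * (J k t (N / p + 1) : ℝ)) := by ring
      _ ≤ _ := by
          apply mul_le_mul h6 (mul_le_mul_of_nonneg_left h5 h7)
          · exact mul_nonneg h7 (Nat.cast_nonneg _)
          · positivity
  have h3 : (Q k t N : ℝ) ≤ (k : ℝ) ^ 3 *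
      ((2 ^ (k ^ 3 + 1) * (N : ℝ) ^ (1 / (k : ℝ))) ^ (2 * t + k * (k - 1) / 2) *
          ((N : ℝ) ^ k * (k.factorial : ℝ) *
            (D * (2 * (N : ℝ) ^ (1 - 1 / (k : ℝ))) ^ lam))) := by
    have h4 : (Q k t N : ℝ) ≤ ∑ p ∈ P, (V k t N p : ℝ) := by exact_mod_cast h2
    refine h4.trans ((Finset.sum_le_sum hV).trans ?_)
    rw [Finset.sum_const, hPc, nsmul_eq_mul]
    push_cast
    exact le_rfl
  have h4 : (J k (t + k) N : ℝ) ≤ 2 * ((k : ℝ) ^ (t + k) * (N : ℝ) ^ (k - 1)) ^ 2 +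
      2 * ((t + k : ℕ) : ℝ) ^ (2 * k) * (Q k t N : ℝ) := by
    exact_mod_cast h1
  refine h4.trans ?_
  have h5 : (0 : ℝ) ≤ 2 * ((t + k : ℕ) : ℝ) ^ (2 * k) := by positivity
  have h6 := mul_le_mul_of_nonneg_left h3 h5
  linarith

end Pool.Agent.H43.VM
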