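import Pool.Agent.H43.VM.Defs

/-!
# [H43 VM TRANS] Solutions in one residue class, with a shift

For `p >= 1`, any integer `a` and any `h ∈ ℤ^k`: the number of pairs `(u,v)` of `t`-tuples from
`{1..N}` with all entries `≡ a (mod p)` and `ps k u = ps k v + h` is at most `J k t (N/p+1)`
(`N/p` is natural division).

PROOF. Let `r ∈ {1..p}` be the integer with `r ≡ a mod p`. The integers of `{1..N}` that are `≡ a`
are `r + p(w-1)` with `w ∈ {1..N/p+1}` (for `w > N/p+1` one has `r + p(w-1) > N`). So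
`u ↦ u'`, `u'_i = (u_i - r)/p + 1`, is an injection into `box t (N/p+1)` and
`u_i = (r-p) + p u'_i`.
(1) If `(u,v)` and `(ũ,ṽ)` are two solutions then `ps k u' - ps k v' = ps k ũ' - ps k ṽ'`:
by the binomial theorem, for `j = 1..k`,
`Σ u_i^j - Σ v_i^j = Σ_{m=1}^{j} C(j,m) (r-p)^(j-m) p^m (Σ u'_i^m - Σ v'_i^m)` (the `m = 0` terms
cancel, both tuples have `t` entries); strong induction on `j`: the left sides are equal (`= h`), the
terms `m < j` are equal by induction, so `p^j (..)` are equal and `p ≠ 0`.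
So all solutions `(u',v')` satisfy `ps k u' = ps k v' + h'` with one fixed `h'` (if there is no
solution the count is `0`).
(2) For every `h'`: `#{(u',v') ∈ box^2 : ps k u' = ps k v' + h'} <= J k t M` (`M = N/p+1`): with
`r(w) = #{u' : ps k u' = w}` the left side is `Σ_w r(w+h') r(w) <= Σ_w (r(w+h')^2 + r(w)^2)/2 <= Σ_w r(w)^2`,
which is `J`. (Sum over `w` in the image of `ps k`; or an injection-free proof by
`2ab <= a^2+b^2`.)
-/

namespace Pool.Agent.H43.VM

open Finset

theorem trans_pairs {α : Type*} [DecidableEq α] {k : ℕ} (S : Finset α) (f : α → Fin k → ℤ)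
    (h : Fin k → ℤ) (V : Finset (Fin k → ℤ)) (hV : ∀ x ∈ S, f x ∈ V) :
    ((S ×ˢ S).filter fun q => f q.1 = f q.2 + h).card =
      ∑ v ∈ V, (S.filter fun x => f x = v + h).card * (S.filter fun x => f x = v).card := by
  rw [Finset.card_eq_sum_card_fiberwise (f := fun q : α × α => f q.2) (t := V)]
  · refine Finset.sum_congr rfl (fun v _ => ?_)
    rw [← Finset.card_product]
    congr 1
    ext q
    simp only [Finset.mem_filter, Finset.mem_product]
    constructor
    · rintro ⟨⟨⟨h1, h2⟩, h3⟩, h4⟩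
      exact ⟨⟨h1, h4 ▸ h3⟩, ⟨h2, h4⟩⟩
    · rintro ⟨⟨h1, h2⟩, ⟨h3, h4⟩⟩
      refine ⟨⟨⟨h1, h3⟩, ?_⟩, h4⟩
      rw [h2, h4]
  · intro q hq
    have hq' := (Finset.mem_filter.1 (Finset.mem_coe.1 hq)).1
    exact Finset.mem_coe.2 (hV _ (Finset.mem_product.1 hq').2)

theorem trans_shiftcount {α : Type*} [DecidableEq α] {k : ℕ} (S : Finset α)
    (f : α → Fin k → ℤ) (h : Fin k → ℤ) :
    ((S ×ˢ S).filter fun q => f q.1 = f q.2 + h).card ≤
      ((S ×ˢ S).filter fun q => f q.1 = f q.2).card := by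
  have h1 := trans_pairs S f h (S.image f) (fun x hx => Finset.mem_image_of_mem f hx)
  have h2 := trans_pairs S f 0 (S.image f) (fun x hx => Finset.mem_image_of_mem f hx)
  simp only [add_zero] at h2
  rw [h1, h2]
  have h3 : ∑ v ∈ S.image f, (S.filter fun x => f x = v + h).card ^ 2 ≤
      ∑ v ∈ S.image f, (S.filter fun x => f x = v).card ^ 2 := by
    have e1 : ∑ v ∈ S.image f, (S.filter fun x => f x = v + h).card ^ 2 =
        ∑ w ∈ (S.image f).image (fun v => v + h), (S.filter fun x => f x = w).card ^ 2 :=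
      (Finset.sum_image (s := S.image f) (g := fun v => v + h)
        (f := fun w => (S.filter fun x => f x = w).card ^ 2)
        (fun a _ b _ hab => add_right_cancel hab)).symm
    rw [e1]
    refine Finset.sum_le_sum_of_ne_zero (fun w _ hw => ?_)
    have h4 : (S.filter fun x => f x = w).card ≠ 0 := by
      intro h0
      apply hw
      rw [h0]
      rfl
    rw [Finset.card_ne_zero] at h4
    obtain ⟨x, hx⟩ := h4
    rw [Finset.mem_filter] at hx
    rw [← hx.2]
    exact Finset.mem_image_of_mem f hx.1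
  have h4 : 2 * ∑ v ∈ S.image f, (S.filter fun x => f x = v + h).card *
      (S.filter fun x => f x = v).card ≤
      ∑ v ∈ S.image f, (S.filter fun x => f x = v + h).card ^ 2 +
      ∑ v ∈ S.image f, (S.filter fun x => f x = v).card ^ 2 := by
    rw [Finset.mul_sum, ← Finset.sum_add_distrib]
    refine Finset.sum_le_sum (fun v _ => ?_)
    have h5 : ∀ a b : ℕ, 2 * (a * b) ≤ a ^ 2 + b ^ 2 := by
      intro a b
      have h6 : 2 * ((a : ℤ) * b) ≤ (a : ℤ) ^ 2 + (b : ℤ) ^ 2 := by
        nlinarith [sq_nonneg ((a : ℤ) - b)]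
      exact_mod_cast h6
    exact h5 _ _
  have h5 : ∑ v ∈ S.image f, (S.filter fun x => f x = v).card ^ 2 =
      ∑ v ∈ S.image f, (S.filter fun x => f x = v).card * (S.filter fun x => f x = v).card :=
    Finset.sum_congr rfl (fun v _ => sq _)
  omega

theorem trans_sum {t : ℕ} (u u' : Fin t → ℤ) (c p : ℤ) (hu : ∀ i, u i = c + p * u' i) (n : ℕ) :
    ∑ i, u i ^ n = ∑ m ∈ range (n + 1), (c ^ (n - m) * p ^ m * (n.choose m : ℤ)) *
      ∑ i, u' i ^ m := by
  have h1 : ∀ i, u i ^ n =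
      ∑ m ∈ range (n + 1), (c ^ (n - m) * p ^ m * (n.choose m : ℤ)) * u' i ^ m := by
    intro i
    rw [hu i, add_comm, add_pow]
    refine Finset.sum_congr rfl (fun m _ => ?_)
    rw [mul_pow]
    ring
  rw [Finset.sum_congr rfl (fun i _ => h1 i), Finset.sum_comm]
  refine Finset.sum_congr rfl (fun m _ => ?_)
  rw [Finset.mul_sum]

theorem trans_fix {t k : ℕ} (c p : ℤ) (hp : p ≠ 0) (h : Fin k → ℤ)
    (u u' v v' x x' y y' : Fin t → ℤ) (hu : ∀ i, u i = c + p * u' i)
    (hv : ∀ i, v i = c + p * v' i) (hx : ∀ i, x i = c + p * x' i)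
    (hy : ∀ i, y i = c + p * y' i) (h1 : ps k u = ps k v + h) (h2 : ps k x = ps k y + h) :
    ∀ n : ℕ, n ≤ k → ∑ i, u' i ^ n - ∑ i, v' i ^ n = ∑ i, x' i ^ n - ∑ i, y' i ^ n := by
  intro n
  induction n using Nat.strong_induction_on with
  | _ n ih =>
    intro hn
    rcases Nat.eq_zero_or_pos n with h0 | h0
    · subst h0
      simp
    · have e1 := congrFun h1 ⟨n - 1, by omega⟩
      have e2 := congrFun h2 ⟨n - 1, by omega⟩
      rw [Pi.add_apply] at e1 e2
      unfold ps at e1 e2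
      simp only [Nat.sub_add_cancel h0] at e1 e2
      have e3 : ∑ i, u i ^ n - ∑ i, v i ^ n = ∑ i, x i ^ n - ∑ i, y i ^ n := by
        rw [e1, e2]
        ring
      rw [trans_sum u u' c p hu, trans_sum v v' c p hv, trans_sum x x' c p hx,
        trans_sum y y' c p hy, ← Finset.sum_sub_distrib, ← Finset.sum_sub_distrib,
        Finset.sum_range_succ, Finset.sum_range_succ] at e3
      have e4 : ∑ m ∈ range n, ((c ^ (n - m) * p ^ m * (n.choose m : ℤ)) * ∑ i, u' i ^ m -
          (c ^ (n - m) * p ^ m * (n.choose m : ℤ)) * ∑ i, v' i ^ m) =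
          ∑ m ∈ range n, ((c ^ (n - m) * p ^ m * (n.choose m : ℤ)) * ∑ i, x' i ^ m -
          (c ^ (n - m) * p ^ m * (n.choose m : ℤ)) * ∑ i, y' i ^ m) := by
        refine Finset.sum_congr rfl (fun m hm => ?_)
        have hm' := Finset.mem_range.1 hm
        rw [← mul_sub, ← mul_sub, ih m hm' (by omega)]
      rw [e4] at e3
      have e5 := add_left_cancel e3
      rw [← mul_sub, ← mul_sub] at e5
      have e6 : c ^ (n - n) * p ^ n * (n.choose n : ℤ) ≠ 0 := by
        rw [Nat.sub_self, pow_zero, one_mul, Nat.choose_self, Nat.cast_one, mul_one]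
        exact pow_ne_zero n hp
      exact mul_left_cancel₀ e6 e5

theorem trans (k t N p : ℕ) (hp : 1 ≤ p) (a : ℤ) (h : Fin k → ℤ) :
    ((box t N ×ˢ box t N).filter fun q =>
      (∀ i, q.1 i ≡ a [ZMOD (p : ℤ)]) ∧ (∀ i, q.2 i ≡ a [ZMOD (p : ℤ)]) ∧
        ps k q.1 = ps k q.2 + h).card ≤ J k t (N / p + 1) := by
  have hp0 : (0 : ℤ) < p := by exact_mod_cast hp
  obtain ⟨r, hr1, hr2, hr3⟩ : ∃ r : ℤ, 1 ≤ r ∧ r ≤ p ∧ r ≡ a [ZMOD (p : ℤ)] := by
    refine ⟨(a - 1) % p + 1, ?_, ?_, ?_⟩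
    · have := Int.emod_nonneg (a - 1) hp0.ne'
      linarith
    · have := Int.emod_lt_of_pos (a - 1) hp0
      linarith
    · have := (Int.mod_modEq (a - 1) (p : ℤ)).add_right 1
      simpa using this
  let g : ℤ → ℤ := fun u => (u - r) / p + 1
  have hg : ∀ u : ℤ, u ≡ a [ZMOD (p : ℤ)] → u = (r - p) + p * g u := by
    intro u hu
    have h1 : (p : ℤ) ∣ u - r := Int.modEq_iff_dvd.1 (hr3.trans hu.symm)
    have h2 : (p : ℤ) * ((u - r) / p) = u - r := Int.mul_ediv_cancel' h1
    change u = (r - p) + p * ((u - r) / p + 1)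
    linarith
  have hgbox : ∀ u : Fin t → ℤ, u ∈ box t N → (∀ i, u i ≡ a [ZMOD (p : ℤ)]) →
      (fun i => g (u i)) ∈ box t (N / p + 1) := by
    intro u hu hc
    unfold box at hu ⊢
    rw [Fintype.mem_piFinset] at hu ⊢
    intro i
    have h1 := Finset.mem_Icc.1 (hu i)
    have h2 := hg (u i) (hc i)
    rw [Finset.mem_Icc]
    constructor
    · by_contra hlt
      push Not at hlt
      have h3 : g (u i) ≤ 0 := by linarith
      nlinarith [h1.1]
    · have h3 : (p : ℤ) * (g (u i) - 1) ≤ N := by nlinarith [h1.2]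
      have h4 : g (u i) - 1 ≤ (N : ℤ) / p := by
        rw [Int.le_ediv_iff_mul_le hp0]
        linarith
      push_cast
      linarith
  rcases Finset.eq_empty_or_nonempty ((box t N ×ˢ box t N).filter fun q =>
      (∀ i, q.1 i ≡ a [ZMOD (p : ℤ)]) ∧ (∀ i, q.2 i ≡ a [ZMOD (p : ℤ)]) ∧
        ps k q.1 = ps k q.2 + h) with he | ⟨q0, hq0⟩
  · rw [he, Finset.card_empty]
    exact Nat.zero_le _
  · obtain ⟨-, b1, b2, b3⟩ := Finset.mem_filter.1 hq0
    refine le_trans ?_ (trans_shiftcount (box t (N / p + 1)) (ps k)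
      (ps k (fun i => g (q0.1 i)) - ps k (fun i => g (q0.2 i))))
    refine Finset.card_le_card_of_injOn (fun q => (fun i => g (q.1 i), fun i => g (q.2 i))) ?_ ?_
    · intro q hq
      obtain ⟨c0, c1, c2, c3⟩ := Finset.mem_filter.1 (Finset.mem_coe.1 hq)
      rw [Finset.mem_product] at c0
      refine Finset.mem_coe.2 (Finset.mem_filter.2 ⟨?_, ?_⟩)
      · rw [Finset.mem_product]
        exact ⟨hgbox _ c0.1 c1, hgbox _ c0.2 c2⟩
      · have h5 := trans_fix (r - p) p hp0.ne' h q.1 (fun i => g (q.1 i)) q.2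
          (fun i => g (q.2 i)) q0.1 (fun i => g (q0.1 i)) q0.2 (fun i => g (q0.2 i))
          (fun i => hg _ (c1 i)) (fun i => hg _ (c2 i)) (fun i => hg _ (b1 i))
          (fun i => hg _ (b2 i)) c3 b3
        funext j
        have h6 := h5 ((j : ℕ) + 1) (by have := j.2; omega)
        rw [Pi.add_apply, Pi.sub_apply]
        unfold ps
        linarith
    · intro q hq q' hq' hqq
      obtain ⟨-, c1, c2, -⟩ := Finset.mem_filter.1 (Finset.mem_coe.1 hq)
      obtain ⟨-, d1, d2, -⟩ := Finset.mem_filter.1 (Finset.mem_coe.1 hq')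
      have h5 : ((fun i => g (q.1 i), fun i => g (q.2 i)) : (Fin t → ℤ) × (Fin t → ℤ)) =
          (fun i => g (q'.1 i), fun i => g (q'.2 i)) := hqq
      rw [Prod.mk.injEq] at h5
      refine Prod.ext ?_ ?_
      · funext i
        rw [hg _ (c1 i), hg _ (d1 i), congrFun h5.1 i]
      · funext i
        rw [hg _ (c2 i), hg _ (d2 i), congrFun h5.2 i]

end Pool.Agent.H43.VM
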