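import Pool.Agent.H43.VM.Hold
import Pool.Agent.H43.VM.Linnik
import Pool.Agent.H43.VM.Trans

/-!
# [H43 VM SPLITV] The bound for `V`

(1) `Va k t N p a <= N^k * (k! p^(k(k-1)/2)) * J k t (N/p+1)` for `p` prime, `1 <= k < p`, `N <= p^k`.
(2) `V k t N p <= p^(2t) * (N^k * (k! p^(k(k-1)/2)) * J k t (N/p+1))` if moreover `t >= 1`.

PROOF OF (1). Let `((x,u),(y,v))` be counted by `Va`. The equation says that the `k+t` integers
`x_i, u_i` and the `k+t` integers `y_i, v_i` have equal power sums of the exponents `1..k`. By the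
binomial theorem (expand `(X-a)^j`, all power sums of exponents `0..j` agree, exponent `0` because
both sides have `k+t` terms) also `Σ (x_i-a)^j + Σ (u_i-a)^j = Σ (y_i-a)^j + Σ (v_i-a)^j` for
`1 <= j <= k`. As `p | u_i - a` and `p | v_i - a`, `Σ (x_i-a)^j ≡ Σ (y_i-a)^j (mod p^j)`. So for
given `y` (at most `N^k` choices: `Fintype.card_piFinset`, `Int.card_Icc`) the tuple `x - a` lies in
the set of `linnik` with `b = -a` and `h_j = Σ (y_i-a)^(j+1)` (and `DMod` is translation invariant):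
at most `k! p^(k(k-1)/2)` choices of `x`. For given `(x,y)` the pairs `(u,v)` satisfy
`ps k u = ps k v + (ps k y - ps k x)` and the two congruence conditions: at most
`J k t (N/p+1)` by `trans`. (Use `Finset.card_le_mul_card_image` twice, or bound the filter by
`Finset.card_sigma`/`Finset.card_biUnion_le`.)
PROOF OF (2). `hold` with `A = (box k N).filter (DMod p)`, `φ = ps k`, `U = Icc 1 N`,
`ψ u = fun j => u^(j+1)`, `c u = (u % p).toNat` (`< p`), so `Σ_i ψ (u i) = ps k u`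
(`Finset.sum_apply`); `c u = a` iff `u ≡ a [ZMOD p]` for `a < p`. The sum over `a ∈ range p` of (1)
has `p` terms; `p^(2t-1) * p = p^(2t)`.
-/

namespace Pool.Agent.H43.VM

open Finset

theorem splitV_shift {ι : Type*} [Fintype ι] (z : ι → ℤ) (a : ℤ) (n : ℕ) :
    ∑ i, (z i - a) ^ n =
      ∑ m ∈ range (n + 1), ((n.choose m : ℤ) * (-a) ^ (n - m)) * ∑ i, z i ^ m := by
  have h1 : ∀ i, (z i - a) ^ n =
      ∑ m ∈ range (n + 1), ((n.choose m : ℤ) * (-a) ^ (n - m)) * z i ^ m := by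
    intro i
    rw [sub_eq_add_neg, add_pow]
    refine Finset.sum_congr rfl (fun m _ => ?_)
    ring
  rw [Finset.sum_congr rfl (fun i _ => h1 i), Finset.sum_comm]
  refine Finset.sum_congr rfl (fun m _ => ?_)
  rw [Finset.mul_sum]

theorem splitV_cong {k t p : ℕ} {a : ℤ} (x y : Fin k → ℤ) (u v : Fin t → ℤ)
    (hu : ∀ i, u i ≡ a [ZMOD (p : ℤ)]) (hv : ∀ i, v i ≡ a [ZMOD (p : ℤ)])
    (h : ps k x + ps k u = ps k y + ps k v) (j : Fin k) :
    ∑ i, (x i - a) ^ ((j : ℕ) + 1) ≡ ∑ i, (y i - a) ^ ((j : ℕ) + 1)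
      [ZMOD ((p : ℤ) ^ ((j : ℕ) + 1))] := by
  have h1 : ∀ m ∈ range ((j : ℕ) + 1 + 1), ∑ i, x i ^ m + ∑ i, u i ^ m =
      ∑ i, y i ^ m + ∑ i, v i ^ m := by
    intro m hm
    rw [Finset.mem_range] at hm
    rcases Nat.eq_zero_or_pos m with h0 | h0
    · subst h0
      simp
    · have h2 := congrFun h ⟨m - 1, by have := j.2; omega⟩
      rw [Pi.add_apply, Pi.add_apply] at h2
      unfold ps at h2
      simp only [Nat.sub_add_cancel h0] at h2
      exact h2
  have h2 : ∑ i, (x i - a) ^ ((j : ℕ) + 1) + ∑ i, (u i - a) ^ ((j : ℕ) + 1) =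
      ∑ i, (y i - a) ^ ((j : ℕ) + 1) + ∑ i, (v i - a) ^ ((j : ℕ) + 1) := by
    rw [splitV_shift, splitV_shift, splitV_shift, splitV_shift, ← Finset.sum_add_distrib,
      ← Finset.sum_add_distrib]
    refine Finset.sum_congr rfl (fun m hm => ?_)
    rw [← mul_add, ← mul_add, h1 m hm]
  have h3 : ∀ w : Fin t → ℤ, (∀ i, w i ≡ a [ZMOD (p : ℤ)]) →
      ((p : ℤ) ^ ((j : ℕ) + 1)) ∣ ∑ i, (w i - a) ^ ((j : ℕ) + 1) := by
    intro w hw
    refine Finset.dvd_sum (fun i _ => ?_)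
    exact pow_dvd_pow_of_dvd ((Int.modEq_iff_dvd.1 (hw i).symm)) _
  rw [Int.modEq_iff_dvd]
  have h4 : ∑ i, (y i - a) ^ ((j : ℕ) + 1) - ∑ i, (x i - a) ^ ((j : ℕ) + 1) =
      ∑ i, (u i - a) ^ ((j : ℕ) + 1) - ∑ i, (v i - a) ^ ((j : ℕ) + 1) := by linarith
  rw [h4]
  exact dvd_sub (h3 u hu) (h3 v hv)

theorem splitV_box (k N : ℕ) : (box k N).card = N ^ k := by
  unfold box
  rw [Fintype.card_piFinset]
  simp

theorem splitV_W (k N p : ℕ) (hp : p.Prime) (hk1 : 1 ≤ k) (hk : k < p) (hN : N ≤ p ^ k) (a : ℤ) :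
    ((box k N ×ˢ box k N).filter fun w => DMod p w.1 ∧ ∀ j : Fin k,
      ∑ i, (w.1 i - a) ^ ((j : ℕ) + 1) ≡ ∑ i, (w.2 i - a) ^ ((j : ℕ) + 1)
        [ZMOD ((p : ℤ) ^ ((j : ℕ) + 1))]).card ≤
      N ^ k * (k.factorial * p ^ (k * (k - 1) / 2)) := by
  have h1 := Finset.card_le_mul_card_image_of_maps_to
    (s := (box k N ×ˢ box k N).filter fun w => DMod p w.1 ∧ ∀ j : Fin k,
      ∑ i, (w.1 i - a) ^ ((j : ℕ) + 1) ≡ ∑ i, (w.2 i - a) ^ ((j : ℕ) + 1)
        [ZMOD ((p : ℤ) ^ ((j : ℕ) + 1))]) (t := box k N) (f := fun w => w.2) (by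
      intro w hw
      exact (Finset.mem_product.1 (Finset.mem_filter.1 hw).1).2)
      (k.factorial * p ^ (k * (k - 1) / 2)) (by
      intro y _
      refine le_trans ?_ (linnik p k N hp hk1 hk hN (-a)
        (fun j => ∑ i, (y i - a) ^ ((j : ℕ) + 1)))
      refine Finset.card_le_card_of_injOn (fun w i => w.1 i - a) ?_ ?_
      · intro w hw
        have hw' := Finset.mem_filter.1 (Finset.mem_coe.1 hw)
        have hw2 := Finset.mem_filter.1 hw'.1
        have hw3 := (Finset.mem_product.1 hw2.1).1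
        unfold box at hw3
        rw [Fintype.mem_piFinset] at hw3
        refine Finset.mem_coe.2 (Finset.mem_filter.2 ⟨?_, ?_, ?_⟩)
        · rw [Fintype.mem_piFinset]
          intro i
          have := Finset.mem_Icc.1 (hw3 i)
          rw [Finset.mem_Icc]
          constructor <;> linarith [this.1, this.2]
        · intro i j hij
          apply hw2.2.1
          have h5 := Int.ModEq.add_right a hij
          simpa using h5
        · intro j
          have h5 := hw2.2.2 j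
          rw [hw'.2] at h5
          exact h5
      · intro w hw w' hw' hww
        have h5 := (Finset.mem_filter.1 (Finset.mem_coe.1 hw)).2
        have h6 := (Finset.mem_filter.1 (Finset.mem_coe.1 hw')).2
        refine Prod.ext ?_ (h5.trans h6.symm)
        funext i
        have h7 := congrFun hww i
        simp only at h7
        linarith)
  rw [splitV_box] at h1
  rw [mul_comm]
  exact h1

theorem va_le (k t N p : ℕ) (hp : p.Prime) (hk1 : 1 ≤ k) (hk : k < p) (hN : N ≤ p ^ k) (a : ℤ) :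
    Va k t N p a ≤ N ^ k * (k.factorial * p ^ (k * (k - 1) / 2)) * J k t (N / p + 1) := by
  unfold Va
  have h1 := Finset.card_le_mul_card_image_of_maps_to
    (s := ((box k N ×ˢ box t N) ×ˢ (box k N ×ˢ box t N)).filter fun q =>
      DMod p q.1.1 ∧ DMod p q.2.1 ∧ (∀ i, q.1.2 i ≡ a [ZMOD (p : ℤ)]) ∧
      (∀ i, q.2.2 i ≡ a [ZMOD (p : ℤ)]) ∧
      ps k q.1.1 + ps k q.1.2 = ps k q.2.1 + ps k q.2.2)
    (t := (box k N ×ˢ box k N).filter fun w => DMod p w.1 ∧ ∀ j : Fin k,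
      ∑ i, (w.1 i - a) ^ ((j : ℕ) + 1) ≡ ∑ i, (w.2 i - a) ^ ((j : ℕ) + 1)
        [ZMOD ((p : ℤ) ^ ((j : ℕ) + 1))])
    (f := fun q => (q.1.1, q.2.1)) (by
      intro q hq
      obtain ⟨h0, h1, h2, h3, h4, h5⟩ := Finset.mem_filter.1 hq
      rw [Finset.mem_product, Finset.mem_product, Finset.mem_product] at h0
      refine Finset.mem_filter.2 ⟨?_, h1, ?_⟩
      · rw [Finset.mem_product]
        exact ⟨h0.1.1, h0.2.1⟩
      · intro j
        exact splitV_cong _ _ _ _ h3 h4 h5 j) (J k t (N / p + 1)) (by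
      intro w _
      refine le_trans ?_ (trans k t N p hp.one_lt.le a (ps k w.2 - ps k w.1))
      refine Finset.card_le_card_of_injOn (fun q => (q.1.2, q.2.2)) ?_ ?_
      · intro q hq
        have hq' := Finset.mem_filter.1 (Finset.mem_coe.1 hq)
        obtain ⟨h0, h1, h2, h3, h4, h5⟩ := Finset.mem_filter.1 hq'.1
        rw [Finset.mem_product, Finset.mem_product, Finset.mem_product] at h0
        have h6 : (q.1.1, q.2.1) = w := hq'.2
        refine Finset.mem_coe.2 (Finset.mem_filter.2 ⟨?_, h3, h4, ?_⟩)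
        · rw [Finset.mem_product]
          exact ⟨h0.1.2, h0.2.2⟩
        · rw [← h6]
          change ps k q.1.2 = ps k q.2.2 + (ps k q.2.1 - ps k q.1.1)
          have h7 : ps k q.1.2 = (ps k q.1.1 + ps k q.1.2) - ps k q.1.1 := by abel
          rw [h7, h5]
          abel
      · intro q hq q' hq' hqq
        have h6 : (q.1.1, q.2.1) = w := (Finset.mem_filter.1 (Finset.mem_coe.1 hq)).2
        have h7 : (q'.1.1, q'.2.1) = w := (Finset.mem_filter.1 (Finset.mem_coe.1 hq')).2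
        have h8 : (q.1.2, q.2.2) = (q'.1.2, q'.2.2) := hqq
        have h9 := h6.trans h7.symm
        rw [Prod.mk.injEq] at h8 h9
        exact Prod.ext (Prod.ext h9.1 h8.1) (Prod.ext h9.2 h8.2))
  refine h1.trans ?_
  rw [mul_comm]
  exact Nat.mul_le_mul_right _ (splitV_W k N p hp hk1 hk hN a)

theorem v_le (k t N p : ℕ) (hp : p.Prime) (hk1 : 1 ≤ k) (hk : k < p) (hN : N ≤ p ^ k)
    (ht : 1 ≤ t) :
    V k t N p ≤
      p ^ (2 * t) * (N ^ k * (k.factorial * p ^ (k * (k - 1) / 2)) * J k t (N / p + 1)) := by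
  have hp0 : (0 : ℤ) < p := by exact_mod_cast hp.pos
  have hψ : ∀ u : Fin t → ℤ, ∑ i, (fun (j : Fin k) => u i ^ ((j : ℕ) + 1)) = ps k u := by
    intro u
    funext j
    rw [Finset.sum_apply]
    rfl
  have h1 := hold (k := k) ((box k N).filter (DMod p)) (Icc (1 : ℤ) (N : ℤ)) (ps k)
    (fun u j => u ^ ((j : ℕ) + 1)) p (fun u => (u % (p : ℤ)).toNat) (by
      intro u _
      have h2 := Int.emod_lt_of_pos u hp0
      have h3 := Int.emod_nonneg u hp0.ne'
      omega) t ht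
  have h3 : V k t N p ≤ (((((box k N).filter (DMod p)) ×ˢ Fintype.piFinset fun _ : Fin t =>
      Icc (1 : ℤ) (N : ℤ)) ×ˢ (((box k N).filter (DMod p)) ×ˢ Fintype.piFinset fun _ : Fin t =>
      Icc (1 : ℤ) (N : ℤ))).filter fun q =>
      ps k q.1.1 + ∑ i, (fun (j : Fin k) => q.1.2 i ^ ((j : ℕ) + 1)) =
        ps k q.2.1 + ∑ i, (fun (j : Fin k) => q.2.2 i ^ ((j : ℕ) + 1))).card := by
    unfold V
    refine Finset.card_le_card ?_
    intro q hq
    obtain ⟨h0, h4, h5, h6⟩ := Finset.mem_filter.1 hq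
    rw [Finset.mem_product, Finset.mem_product, Finset.mem_product] at h0
    refine Finset.mem_filter.2 ⟨?_, ?_⟩
    · rw [Finset.mem_product, Finset.mem_product, Finset.mem_product, Finset.mem_filter,
        Finset.mem_filter]
      exact ⟨⟨⟨h0.1.1, h4⟩, h0.1.2⟩, ⟨⟨h0.2.1, h5⟩, h0.2.2⟩⟩
    · rw [hψ, hψ]
      exact h6
  refine h3.trans (h1.trans ?_)
  have h4 : ∀ a ∈ range p, ((((((box k N).filter (DMod p)) ×ˢ Fintype.piFinset fun _ : Fin t =>
      Icc (1 : ℤ) (N : ℤ)) ×ˢ (((box k N).filter (DMod p)) ×ˢ Fintype.piFinset fun _ : Fin t =>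
      Icc (1 : ℤ) (N : ℤ))).filter fun q =>
      (∀ i, (q.1.2 i % (p : ℤ)).toNat = a) ∧ (∀ i, (q.2.2 i % (p : ℤ)).toNat = a) ∧
      ps k q.1.1 + ∑ i, (fun (j : Fin k) => q.1.2 i ^ ((j : ℕ) + 1)) =
        ps k q.2.1 + ∑ i, (fun (j : Fin k) => q.2.2 i ^ ((j : ℕ) + 1))).card) ≤
      N ^ k * (k.factorial * p ^ (k * (k - 1) / 2)) * J k t (N / p + 1) := by
    intro a _
    refine le_trans (Finset.card_le_card ?_) (va_le k t N p hp hk1 hk hN (a : ℤ))
    have hmod : ∀ u : ℤ, (u % (p : ℤ)).toNat = a → u ≡ (a : ℤ) [ZMOD (p : ℤ)] := by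
      intro u hu
      have h5 := Int.emod_nonneg u hp0.ne'
      have h6 : u % (p : ℤ) = (a : ℤ) := by
        rw [← hu, Int.toNat_of_nonneg h5]
      rw [← h6]
      exact (Int.mod_modEq u _).symm
    intro q hq
    obtain ⟨h0, h5, h6, h7⟩ := Finset.mem_filter.1 hq
    rw [Finset.mem_product, Finset.mem_product, Finset.mem_product, Finset.mem_filter,
      Finset.mem_filter] at h0
    refine Finset.mem_filter.2 ⟨?_, h0.1.1.2, h0.2.1.2, fun i => hmod _ (h5 i),
      fun i => hmod _ (h6 i), ?_⟩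
    · rw [Finset.mem_product, Finset.mem_product, Finset.mem_product]
      exact ⟨⟨h0.1.1.1, h0.1.2⟩, ⟨h0.2.1.1, h0.2.2⟩⟩
    · rw [hψ, hψ] at h7
      exact h7
  refine (Nat.mul_le_mul_left _ (Finset.sum_le_sum h4)).trans ?_
  rw [Finset.sum_const, Finset.card_range, smul_eq_mul, ← mul_assoc]
  refine Nat.mul_le_mul_right _ (le_of_eq ?_)
  rw [← pow_succ]
  congr 1
  omega

end Pool.Agent.H43.VM
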